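import Mathlib

/-!
Arithmetic part: the number `W a c` of quarter-plane words, and eventual periodicity
(from index 1 on, with period a power of two) of the convolution sums modulo `2 ^ k`.
-/

namespace Pool.Agent.Lib.MP_b072c6_co

/-- Number of words ending at `(a, c)`. -/
def W : ℕ → ℕ → ℕ
  | 0, 0 => 1
  | a + 1, 0 => W a 0
  | 0, c + 1 => W 0 c + W 1 c
  | a + 1, c + 1 => W a (c + 1) + W (a + 1) c + W (a + 2) c
termination_by a c => (c, a)

/-- Coefficients in the binomial expansion of `W`. -/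
def G : ℕ → ℕ → ℕ
  | 0, j => if j = 0 then 1 else 0
  | _ + 1, 0 => 0
  | c + 1, j + 1 => G c j + 3 * G c (j + 1) + 2 * G c (j + 2)

theorem W_zero_right (a : ℕ) : W a 0 = 1 := by
  induction a with
  | zero => simp [W]
  | succ a ih => rw [W, ih]

theorem G_eq_zero (c j : ℕ) (h : c < j) : G c j = 0 := by
  induction c generalizing j with
  | zero => simp [G]; omega
  | succ c ih =>
    cases j with
    | zero => omega
    | succ j => simp only [G]; rw [ih j (by omega), ih (j+1) (by omega), ih (j+2) (by omega)]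

/-- The partial sum in the formula for `W`. -/
def WF (J a c : ℕ) : ℕ := ∑ j ∈ Finset.range J, 2 ^ j * (a.choose j) * G c j

theorem WF_eq (J J' a c : ℕ) (h : c < J) (h' : c < J') : WF J a c = WF J' a c := by
  have key : ∀ J J', c < J → J ≤ J' → WF J a c = WF J' a c := by
    intro J J' hJ hJJ
    unfold WF
    apply Finset.sum_subset (Finset.range_mono hJJ)
    intro x hx hx'
    rw [Finset.mem_range, not_lt] at hx'
    rw [G_eq_zero c x (by omega), mul_zero]
  rcases le_total J J' with h1 | h1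
  · exact key J J' h h1
  · exact (key J' J h' h1).symm

/-- `a` is shifted by one: `WF J (a+1) c` is `W a c`. -/
theorem WF_rec (J a c : ℕ) (hJ : c + 3 < J) :
    WF J (a + 1) (c + 1) = WF J a (c + 1) + WF J (a + 1) c + WF J (a + 2) c := by
  obtain ⟨K, rfl⟩ : ∃ K, J = K + 1 := ⟨J - 1, by omega⟩
  have e1 : WF (K+1) (a+1) (c+1) = WF (K + 1) a (c+1) +
      ∑ j ∈ Finset.range K, 2 ^ (j+1) * (a.choose j) * G (c+1) (j+1) := by
    unfold WF
    rw [Finset.sum_range_succ', Finset.sum_range_succ' (fun j => 2 ^ j * (a.choose j) * G (c+1) j)]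
    have : ∀ j, 2 ^ (j+1) * ((a+1).choose (j+1)) * G (c+1) (j+1) =
        2 ^ (j+1) * (a.choose (j+1)) * G (c+1) (j+1) + 2 ^ (j+1) * (a.choose j) * G (c+1) (j+1) := by
      intro j
      rw [Nat.choose_succ_succ]; ring
    simp only [this, Finset.sum_add_distrib]
    simp [G]
  have e2 : WF (K+1) (a+1) c + WF (K+1) (a+2) c =
      ∑ j ∈ Finset.range K, 2 ^ (j+1) * (a.choose j) * G (c+1) (j+1) := by
    have h1 : ∀ j, 2 ^ (j+1) * (a.choose j) * G (c+1) (j+1) =
        2 ^ (j+1) * (a.choose j) * G c j + 3 * (2 ^ (j+1) * (a.choose j) * G c (j+1))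
          + 2 * (2 ^ (j+1) * (a.choose j) * G c (j+2)) := by
      intro j; simp only [G]; ring
    simp only [h1, Finset.sum_add_distrib, ← Finset.mul_sum]
    -- left side
    obtain ⟨L, rfl⟩ : ∃ L, K = L + 1 := ⟨K - 1, by omega⟩
    have hG : G c (L+1) = 0 := G_eq_zero _ _ (by omega)
    have hG2 : G c (L+2) = 0 := G_eq_zero _ _ (by omega)
    have hG3 : G c (L+3) = 0 := G_eq_zero _ _ (by omega)
    have c1 : WF (L+1+1) (a+1) c = WF (L+1+1) a c +
        ∑ j ∈ Finset.range (L+1), 2 ^ (j+1) * (a.choose j) * G c (j+1) := by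
      unfold WF
      rw [Finset.sum_range_succ', Finset.sum_range_succ' (fun j => 2 ^ j * (a.choose j) * G c j)]
      have : ∀ j, 2 ^ (j+1) * ((a+1).choose (j+1)) * G c (j+1) =
          2 ^ (j+1) * (a.choose (j+1)) * G c (j+1) + 2 ^ (j+1) * (a.choose j) * G c (j+1) := by
        intro j
        rw [Nat.choose_succ_succ]; ring
      simp only [this, Finset.sum_add_distrib]
      simp
      ring
    have c2 : WF (L+1+1) (a+2) c = WF (L+1+1) (a+1) c +
        ∑ j ∈ Finset.range (L+1), 2 ^ (j+1) * ((a+1).choose j) * G c (j+1) := by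
      unfold WF
      rw [Finset.sum_range_succ', Finset.sum_range_succ' (fun j => 2 ^ j * ((a+1).choose j) * G c j)]
      have : ∀ j, 2 ^ (j+1) * ((a+2).choose (j+1)) * G c (j+1) =
          2 ^ (j+1) * ((a+1).choose (j+1)) * G c (j+1) + 2 ^ (j+1) * ((a+1).choose j) * G c (j+1) := by
        intro j
        rw [show a + 2 = (a+1) + 1 from rfl, Nat.choose_succ_succ]; ring
      simp only [this, Finset.sum_add_distrib]
      simp
      ring
    have c3 : ∑ j ∈ Finset.range (L+1), 2 ^ (j+1) * ((a+1).choose j) * G c (j+1) =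
        ∑ j ∈ Finset.range (L+1), 2 ^ (j+1) * (a.choose j) * G c (j+1) +
        2 * ∑ j ∈ Finset.range (L+1), 2 ^ (j+1) * (a.choose j) * G c (j+2) := by
      rw [Finset.sum_range_succ', Finset.sum_range_succ' (fun j => 2 ^ (j+1) * (a.choose j) * G c (j+1)),
        Finset.sum_range_succ (fun j => 2 ^ (j+1) * (a.choose j) * G c (j+2)), hG2]
      have : ∀ j, 2 ^ (j+1+1) * ((a+1).choose (j+1)) * G c (j+1+1) =
          2 ^ (j+1+1) * (a.choose (j+1)) * G c (j+1+1) + 2 * (2 ^ (j+1) * (a.choose j) * G c (j+2)) := by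
        intro j
        rw [Nat.choose_succ_succ]; ring
      simp only [this, Finset.sum_add_distrib, ← Finset.mul_sum]
      simp
      ring
    have c4 : WF (L+1+1) a c = ∑ j ∈ Finset.range (L+1), 2 ^ j * (a.choose j) * G c j := by
      unfold WF
      rw [Finset.sum_range_succ, hG]; simp
    have c5 : ∑ j ∈ Finset.range (L+1), 2 ^ (j+1) * (a.choose j) * G c j = 2 * WF (L+1+1) a c := by
      rw [c4, Finset.mul_sum]
      apply Finset.sum_congr rfl
      intro j _; ring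
    rw [c5]
    rw [c2, c3, c1]
    ring
  rw [e1, add_assoc, e2]

theorem WF_zero (J c : ℕ) (hJ : 0 < J) : WF J 0 (c + 1) = 0 := by
  unfold WF
  obtain ⟨K, rfl⟩ : ∃ K, J = K + 1 := ⟨J - 1, by omega⟩
  rw [Finset.sum_range_succ']
  simp [G]

theorem W_eq_WF (a c J : ℕ) (hJ : c < J) : W a c = WF J (a + 1) c := by
  have key : ∀ c a, W a c = WF (c + 5) (a + 1) c := by
    intro c
    induction c with
    | zero =>
      intro a
      rw [W_zero_right]
      unfold WF
      rw [Finset.sum_range_succ']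
      simp [G]
    | succ c ih =>
      intro a
      induction a with
      | zero =>
        rw [W, WF_rec _ _ _ (by omega), WF_zero _ _ (by omega), ih, ih,
          WF_eq (c+5) (c+1+5) _ c (by omega) (by omega), WF_eq (c+5) (c+1+5) _ c (by omega) (by omega)]
        ring
      | succ a iha =>
        rw [W, WF_rec _ _ _ (by omega), iha, ih, ih,
          WF_eq (c+5) (c+1+5) _ c (by omega) (by omega), WF_eq (c+5) (c+1+5) _ c (by omega) (by omega)]
  rw [key, WF_eq _ J _ c (by omega) hJ]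

/-- `s` is periodic from index `1` on, with period `2 ^ M`. -/
def PerM {R : Type*} (M : ℕ) (s : ℕ → R) : Prop := ∀ n, 1 ≤ n → s (n + 2 ^ M) = s n

/-- `s` is periodic from index `1` on, with period a power of two. -/
def EP {R : Type*} (s : ℕ → R) : Prop := ∃ M, PerM M s

theorem per_mul {R : Type*} {N : ℕ} {s : ℕ → R} (h : ∀ n, 1 ≤ n → s (n + N) = s n) (t : ℕ) :
    ∀ n, 1 ≤ n → s (n + N * t) = s n := by
  induction t with
  | zero => intro n _; simp
  | succ t ih =>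
    intro n hn
    rw [Nat.mul_succ, ← add_assoc, h _ (by omega), ih n hn]

theorem PerM.mono {R : Type*} {M M' : ℕ} {s : ℕ → R} (h : PerM M s) (hM : M ≤ M') : PerM M' s := by
  obtain ⟨d, rfl⟩ := Nat.exists_eq_add_of_le hM
  intro n hn
  rw [pow_add]
  exact per_mul h _ n hn

theorem PerM.mul_per {R : Type*} {M : ℕ} {s : ℕ → R} (h : PerM M s) (t n : ℕ) (hn : 1 ≤ n) :
    s (n + 2 ^ M * t) = s n := per_mul h t n hn

theorem EP.add {R : Type*} [CommRing R] {s s' : ℕ → R} (h : EP s) (h' : EP s') :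
    EP (fun n => s n + s' n) := by
  obtain ⟨M, hM⟩ := h
  obtain ⟨M', hM'⟩ := h'
  refine ⟨max M M', fun n hn => ?_⟩
  simp only []
  rw [hM.mono (le_max_left _ _) n hn, hM'.mono (le_max_right _ _) n hn]

theorem EP.mul {R : Type*} [CommRing R] {s s' : ℕ → R} (h : EP s) (h' : EP s') :
    EP (fun n => s n * s' n) := by
  obtain ⟨M, hM⟩ := h
  obtain ⟨M', hM'⟩ := h'
  refine ⟨max M M', fun n hn => ?_⟩
  simp only []
  rw [hM.mono (le_max_left _ _) n hn, hM'.mono (le_max_right _ _) n hn]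

theorem EP.const {R : Type*} (c : R) : EP (fun _ => c) := ⟨0, fun _ _ => rfl⟩

theorem EP.sum {R : Type*} [CommRing R] {ι : Type*} (F : Finset ι) (s : ι → ℕ → R)
    (h : ∀ i ∈ F, EP (s i)) : EP (fun n => ∑ i ∈ F, s i n) := by
  classical
  induction F using Finset.induction_on with
  | empty => simpa using EP.const (0 : R)
  | insert a F ha ih =>
    have := (h a (Finset.mem_insert_self _ _)).add
      (ih (fun i hi => h i (Finset.mem_insert_of_mem hi)))
    refine ⟨this.choose, fun n hn => ?_⟩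
    have h2 := this.choose_spec n hn
    simp only [Finset.sum_insert ha]
    exact h2

/-- If `x (n + N) = x n + V n` with `V` periodic of period `N`, then `x` is periodic of period
`N * 2 ^ k` modulo `2 ^ k`. -/
theorem per_of_add {k N : ℕ} {x V : ℕ → ZMod (2 ^ k)}
    (hx : ∀ n, 1 ≤ n → x (n + N) = x n + V n) (hV : ∀ n, 1 ≤ n → V (n + N) = V n) :
    ∀ n, 1 ≤ n → x (n + N * 2 ^ k) = x n := by
  have key : ∀ t n, 1 ≤ n → x (n + N * t) = x n + t * V n := by
    intro t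
    induction t with
    | zero => intro n _; simp
    | succ t ih =>
      intro n hn
      rw [Nat.mul_succ, ← add_assoc, hx _ (by omega), ih n hn, per_mul hV t n hn]
      push_cast; ring
  intro n hn
  rw [key _ n hn]
  have : ((2 ^ k : ℕ) : ZMod (2 ^ k)) = 0 := ZMod.natCast_self _
  rw [this]; simp

theorem EP.of_rec {k : ℕ} {x y : ℕ → ZMod (2 ^ k)} {u : ZMod (2 ^ k)} {K : ℕ} (hu : u ^ (2 ^ K) = 1)
    (hy : EP y) (hx : ∀ n, 1 ≤ n → x (n + 1) = u * x n + y n) : EP x := by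
  obtain ⟨M0, hM0⟩ := hy
  set M := max M0 K with hMdef
  have hM : PerM M y := hM0.mono (le_max_left _ _)
  have huM : u ^ (2 ^ M) = 1 := by
    have : M = K + (M - K) := by omega
    rw [this, pow_add, pow_mul, hu, one_pow]
  have h1 : ∀ t n, 1 ≤ n → x (n + t) = u ^ t * x n + ∑ i ∈ Finset.range t, u ^ (t - 1 - i) * y (n + i) := by
    intro t
    induction t with
    | zero => intro n _; simp
    | succ t ih =>
      intro n hn
      rw [← add_assoc, hx _ (by omega), ih n hn, Finset.sum_range_succ, mul_add, Finset.mul_sum]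
      have : ∀ i ∈ Finset.range t, u * (u ^ (t - 1 - i) * y (n + i)) = u ^ (t + 1 - 1 - i) * y (n + i) := by
        intro i hi
        rw [Finset.mem_range] at hi
        rw [← mul_assoc, ← pow_succ', show t - 1 - i + 1 = t + 1 - 1 - i by omega]
      rw [Finset.sum_congr rfl this]
      simp
      ring
  refine ⟨M + k, ?_⟩
  intro n hn
  rw [pow_add]
  refine per_of_add (V := fun n => ∑ i ∈ Finset.range (2 ^ M), u ^ (2 ^ M - 1 - i) * y (n + i)) ?_ ?_ n hn
  · intro n hn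
    rw [h1 _ n hn, huM, one_mul]
  · intro n hn
    apply Finset.sum_congr rfl
    intro i _
    rw [show n + 2 ^ M + i = n + i + 2 ^ M by ring, hM _ (by omega)]

/-- Convolution of two sequences. -/
def conv {R : Type*} [CommRing R] (s s' : ℕ → R) (n : ℕ) : R :=
  ∑ p ∈ Finset.HasAntidiagonal.antidiagonal n, s p.1 * s' p.2

theorem EP.conv {k : ℕ} {s s' : ℕ → ZMod (2 ^ k)} (h : EP s) (h' : EP s') : EP (conv s s') := by
  obtain ⟨M0, hM0⟩ := h
  obtain ⟨M1, hM1⟩ := h'
  set M := max M0 M1 with hMdef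
  have hs : PerM M s := hM0.mono (le_max_left _ _)
  have hs' : PerM M s' := hM1.mono (le_max_right _ _)
  refine ⟨M + k, ?_⟩
  intro n hn
  rw [pow_add]
  refine per_of_add (V := fun n => ∑ j ∈ Finset.range (2 ^ M), s (n + j) * s' (2 ^ M - j)) ?_ ?_ n hn
  · intro n hn
    unfold MP_b072c6_co.conv
    rw [Finset.Nat.sum_antidiagonal_eq_sum_range_succ_mk,
      Finset.Nat.sum_antidiagonal_eq_sum_range_succ_mk]
    simp only []
    rw [Finset.sum_range_succ, Finset.sum_range_add, Finset.sum_range_succ]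
    have e1 : ∀ i ∈ Finset.range n, s i * s' (n + 2 ^ M - i) = s i * s' (n - i) := by
      intro i hi
      rw [Finset.mem_range] at hi
      rw [Nat.sub_add_comm (le_of_lt hi), hs' _ (by omega)]
    have e2 : ∀ j ∈ Finset.range (2 ^ M), s (n + j) * s' (n + 2 ^ M - (n + j)) =
        s (n + j) * s' (2 ^ M - j) := by
      intro j _
      rw [show n + 2 ^ M - (n + j) = 2 ^ M - j by omega]
    rw [Finset.sum_congr rfl e1, Finset.sum_congr rfl e2, hs n hn]
    simp
    ring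
  · intro n hn
    apply Finset.sum_congr rfl
    intro i _
    rw [show n + 2 ^ M + i = n + i + 2 ^ M by ring, hs _ (by omega)]

theorem EP.choose (k j r : ℕ) : EP (fun n => (((n + r).choose j : ℕ) : ZMod (2 ^ k))) := by
  induction j with
  | zero => simpa using EP.const (1 : ZMod (2 ^ k))
  | succ j ih =>
    refine EP.of_rec (u := 1) (K := 0) (by simp) ih ?_
    intro n _
    rw [show n + 1 + r = (n + r) + 1 by ring, Nat.choose_succ_succ]
    push_cast; ring

theorem three_pow (k : ℕ) : ∃ K, (3 : ZMod (2 ^ k)) ^ (2 ^ K) = 1 := by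
  refine ⟨k, ?_⟩
  induction k with
  | zero =>
    have : Subsingleton (ZMod (2 ^ 0)) := by rw [pow_zero]; infer_instance
    exact Subsingleton.elim _ _
  | succ k ih =>
    -- 3 ^ (2 ^ k) = 1 + 2 ^ k * t in the integers
    have h1 : (2 : ℤ) ^ k ∣ 3 ^ (2 ^ k) - 1 := by
      have := (ZMod.intCast_zmod_eq_zero_iff_dvd ((3 : ℤ) ^ (2 ^ k) - 1) (2 ^ k)).1 (by
        push_cast; rw [ih]; ring)
      exact_mod_cast this
    have h2 : (2 : ℤ) ^ (k + 1) ∣ 3 ^ (2 ^ (k + 1)) - 1 := by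
      have e : (3 : ℤ) ^ (2 ^ (k + 1)) - 1 = (3 ^ (2 ^ k) - 1) * (3 ^ (2 ^ k) + 1) := by
        rw [pow_succ 2 k, pow_mul]; ring
      rw [e, pow_succ]
      apply mul_dvd_mul h1
      have : Odd ((3 : ℤ) ^ (2 ^ k)) := Odd.pow (by decide)
      exact (this.add_odd odd_one).two_dvd
    have := (ZMod.intCast_zmod_eq_zero_iff_dvd ((3 : ℤ) ^ (2 ^ (k + 1)) - 1) (2 ^ (k + 1))).2 (by
      exact_mod_cast h2)
    push_cast at this
    exact sub_eq_zero.1 this

/-- Each column of the coefficient array is periodic modulo `2 ^ k`. -/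
theorem G_per (k : ℕ) : ∀ j, EP (fun c => ((G c j : ℕ) : ZMod (2 ^ k))) := by
  induction k with
  | zero =>
    intro j
    have : Subsingleton (ZMod (2 ^ 0)) := by rw [pow_zero]; infer_instance
    exact ⟨0, fun n _ => Subsingleton.elim _ _⟩
  | succ k ih =>
    intro j
    induction j with
    | zero =>
      refine ⟨0, fun n hn => ?_⟩
      obtain ⟨m, rfl⟩ : ∃ m, n = m + 1 := ⟨n - 1, by omega⟩
      simp [G]
    | succ j ihj =>
      obtain ⟨K, hK⟩ := three_pow (k + 1)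
      have h2 : EP (fun c => ((2 * G c (j + 2) : ℕ) : ZMod (2 ^ (k + 1)))) := by
        obtain ⟨M, hM⟩ := ih (j + 2)
        refine ⟨M, fun n hn => ?_⟩
        have h3 := hM n hn
        simp only [] at h3 ⊢
        rw [ZMod.natCast_eq_natCast_iff] at h3 ⊢
        rw [pow_succ, mul_comm (2 ^ k) 2]
        exact Nat.ModEq.mul_left' 2 h3
      refine EP.of_rec (u := 3) (K := K) hK (ihj.add h2) ?_
      intro n hn
      simp only [G]
      push_cast; ring

/-- The reduction of `W` modulo `2 ^ k`. -/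
theorem W_mod (k a c : ℕ) : ((W a c : ℕ) : ZMod (2 ^ k)) =
    ∑ j ∈ Finset.range k, 2 ^ j * (((a + 1).choose j : ℕ) : ZMod (2 ^ k)) * ((G c j : ℕ) : ZMod (2 ^ k)) := by
  rw [W_eq_WF a c (k + c + 1) (by omega)]
  unfold WF
  rw [add_assoc, Finset.sum_range_add]
  push_cast
  have : ∀ x ∈ Finset.range (c + 1), (2 : ZMod (2 ^ k)) ^ (k + x) * (((a + 1).choose (k + x) : ℕ) : ZMod (2 ^ k)) *
      ((G c (k + x) : ℕ) : ZMod (2 ^ k)) = 0 := by
    intro x _
    have h0 : (2 : ZMod (2 ^ k)) ^ k = 0 := by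
      have : ((2 ^ k : ℕ) : ZMod (2 ^ k)) = 0 := ZMod.natCast_self _
      exact_mod_cast this
    rw [pow_add, h0]; ring
  rw [Finset.sum_congr rfl this]
  simp

/-- The triple sum, with shifts `r0`, `r1`, `r2`. -/
def S (r0 r1 r2 m : ℕ) : ℕ :=
  ∑ p ∈ Finset.HasAntidiagonal.antidiagonal m, ∑ q ∈ Finset.HasAntidiagonal.antidiagonal p.2,
    W (p.1 + r0) q.2 * W (q.1 + r1) p.1 * W (q.2 + r2) q.1

theorem sum_swap3 {α β ι R : Type*} [CommRing R] (A : Finset α) (B : α → Finset β) (C : Finset ι)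
    (F : α → β → ι → R) : ∑ p ∈ A, ∑ q ∈ B p, ∑ j ∈ C, F p q j = ∑ j ∈ C, ∑ p ∈ A, ∑ q ∈ B p, F p q j := by
  rw [Finset.sum_comm]
  apply Finset.sum_congr rfl
  intro p _
  rw [Finset.sum_comm]

theorem S_per (k r0 r1 r2 : ℕ) : EP (fun m => ((S r0 r1 r2 m : ℕ) : ZMod (2 ^ k))) := by
  have key : ∀ m, ((S r0 r1 r2 m : ℕ) : ZMod (2 ^ k)) =
      ∑ j1 ∈ Finset.range k, ∑ j2 ∈ Finset.range k, ∑ j3 ∈ Finset.range k,
        (2 ^ j1 * 2 ^ j2 * 2 ^ j3) *
        conv (fun n => (((n + (r0 + 1)).choose j1 : ℕ) : ZMod (2 ^ k)) * ((G n j2 : ℕ) : ZMod (2 ^ k)))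
          (conv (fun n => (((n + (r1 + 1)).choose j2 : ℕ) : ZMod (2 ^ k)) * ((G n j3 : ℕ) : ZMod (2 ^ k)))
            (fun n => (((n + (r2 + 1)).choose j3 : ℕ) : ZMod (2 ^ k)) * ((G n j1 : ℕ) : ZMod (2 ^ k)))) m := by
    intro m
    have e : ∀ p ∈ Finset.HasAntidiagonal.antidiagonal m, ∀ q ∈ Finset.HasAntidiagonal.antidiagonal p.2,
        ((W (p.1 + r0) q.2 : ℕ) : ZMod (2 ^ k)) * ((W (q.1 + r1) p.1 : ℕ) : ZMod (2 ^ k)) *
          ((W (q.2 + r2) q.1 : ℕ) : ZMod (2 ^ k)) =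
        ∑ j1 ∈ Finset.range k, ∑ j2 ∈ Finset.range k, ∑ j3 ∈ Finset.range k,
        (2 ^ j1 * 2 ^ j2 * 2 ^ j3) * ((((p.1 + (r0 + 1)).choose j1 : ℕ) : ZMod (2 ^ k)) * ((G p.1 j2 : ℕ) : ZMod (2 ^ k)) *
          ((((q.1 + (r1 + 1)).choose j2 : ℕ) : ZMod (2 ^ k)) * ((G q.1 j3 : ℕ) : ZMod (2 ^ k)) *
            ((((q.2 + (r2 + 1)).choose j3 : ℕ) : ZMod (2 ^ k)) * ((G q.2 j1 : ℕ) : ZMod (2 ^ k))))) := by
      intro p _ q _
      rw [W_mod k (p.1 + r0), W_mod k (q.1 + r1), W_mod k (q.2 + r2), Finset.sum_mul_sum, Finset.sum_mul]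
      apply Finset.sum_congr rfl; intro j1 _
      rw [Finset.sum_mul]
      apply Finset.sum_congr rfl; intro j2 _
      rw [Finset.mul_sum]
      apply Finset.sum_congr rfl; intro j3 _
      rw [add_assoc p.1 r0 1, add_assoc q.1 r1 1, add_assoc q.2 r2 1]
      ring
    unfold S
    push_cast
    rw [Finset.sum_congr rfl (fun p hp => Finset.sum_congr rfl (e p hp)), sum_swap3]
    apply Finset.sum_congr rfl; intro j1 _
    rw [sum_swap3]
    apply Finset.sum_congr rfl; intro j2 _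
    rw [sum_swap3]
    apply Finset.sum_congr rfl; intro j3 _
    unfold conv
    simp only [Finset.mul_sum]
  have := EP.sum (Finset.range k) (fun j1 m => ∑ j2 ∈ Finset.range k, ∑ j3 ∈ Finset.range k,
        (2 ^ j1 * 2 ^ j2 * 2 ^ j3) *
        conv (fun n => (((n + (r0 + 1)).choose j1 : ℕ) : ZMod (2 ^ k)) * ((G n j2 : ℕ) : ZMod (2 ^ k)))
          (conv (fun n => (((n + (r1 + 1)).choose j2 : ℕ) : ZMod (2 ^ k)) * ((G n j3 : ℕ) : ZMod (2 ^ k)))
            (fun n => (((n + (r2 + 1)).choose j3 : ℕ) : ZMod (2 ^ k)) * ((G n j1 : ℕ) : ZMod (2 ^ k)))) m)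
    (fun j1 _ => EP.sum _ _ (fun j2 _ => EP.sum _ _ (fun j3 _ =>
      (EP.const _).mul (((EP.choose k j1 (r0+1)).mul (G_per k j2)).conv
        (((EP.choose k j2 (r1+1)).mul (G_per k j3)).conv ((EP.choose k j3 (r2+1)).mul (G_per k j1)))))))
  simpa only [← key] using this

theorem EP.shift {R : Type*} {s : ℕ → R} (h : EP s) : EP (fun n => s (n + 1)) := by
  obtain ⟨M, hM⟩ := h
  refine ⟨M, fun n hn => ?_⟩
  have := hM (n + 1) (by omega)
  simp only []
  rw [← this]
  congr 1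
  omega

/-- The arithmetic conclusion: a function given by the triple sums is 2-adically continuous. -/
theorem continuity_of_formula (f : ℤ → ℕ)
    (hf : ∀ t : ℕ, 1 ≤ t → f ((t : ℤ) + 3) + (S 1 0 0 t + S 0 1 0 t + S 0 0 1 t) = S 0 0 0 (t + 1)) :
    ∀ k : ℕ, ∃ M : ℕ, ∀ n n' : ℤ, 4 ≤ n → 4 ≤ n' → n ≡ n' [ZMOD 2 ^ M] →
      (f n : ℤ) ≡ (f n' : ℤ) [ZMOD 2 ^ k] := by
  intro k
  have hper : EP (fun t => ((S 0 0 0 (t + 1) : ℕ) : ZMod (2 ^ k)) + (-1) * (((S 1 0 0 t : ℕ) : ZMod (2 ^ k)) +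
      ((S 0 1 0 t : ℕ) : ZMod (2 ^ k)) + ((S 0 0 1 t : ℕ) : ZMod (2 ^ k)))) :=
    (S_per k 0 0 0).shift.add ((EP.const (-1)).mul (((S_per k 1 0 0).add (S_per k 0 1 0)).add (S_per k 0 0 1)))
  obtain ⟨M, hM⟩ := hper
  refine ⟨M, ?_⟩
  have hval : ∀ t : ℕ, 1 ≤ t → ((f ((t : ℤ) + 3) : ℕ) : ZMod (2 ^ k)) =
      ((S 0 0 0 (t + 1) : ℕ) : ZMod (2 ^ k)) + (-1) * (((S 1 0 0 t : ℕ) : ZMod (2 ^ k)) +
      ((S 0 1 0 t : ℕ) : ZMod (2 ^ k)) + ((S 0 0 1 t : ℕ) : ZMod (2 ^ k))) := by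
    intro t ht
    rw [← hf t ht]
    push_cast
    ring
  -- the ordered case
  have key : ∀ n n' : ℤ, 4 ≤ n → n ≤ n' → n ≡ n' [ZMOD 2 ^ M] → (f n : ℤ) ≡ (f n' : ℤ) [ZMOD 2 ^ k] := by
    intro n n' hn hnn h
    obtain ⟨t, rfl⟩ : ∃ t : ℕ, n = (t : ℤ) + 3 := ⟨(n - 3).toNat, by omega⟩
    obtain ⟨d, hd⟩ := (Int.modEq_iff_dvd.1 h)
    have hd0 : 0 ≤ d := by
      have h2 : (0 : ℤ) < 2 ^ M := by positivity
      by_contra hneg
      push Not at hneg
      nlinarith
    obtain ⟨d', rfl⟩ := Int.eq_ofNat_of_zero_le hd0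
    have hn' : n' = ((t + 2 ^ M * d' : ℕ) : ℤ) + 3 := by push_cast; linarith
    rw [hn']
    have e : ((f ((t : ℤ) + 3) : ℕ) : ZMod (2 ^ k)) = ((f (((t + 2 ^ M * d' : ℕ) : ℤ) + 3) : ℕ) : ZMod (2 ^ k)) := by
      rw [hval t (by omega), hval (t + 2 ^ M * d') (by omega)]
      exact (hM.mul_per d' t (by omega)).symm
    rw [ZMod.natCast_eq_natCast_iff] at e
    have := Int.natCast_modEq_iff.2 e
    exact_mod_cast this
  intro n n' hn hn' h
  rcases le_total n n' with h1 | h1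
  · exact key n n' hn h1 h
  · exact (key n' n hn' h1 h.symm).symm

end Pool.Agent.Lib.MP_b072c6_co
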