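import Mathlib

/-!
The cells of the hexagonal tiling, stones, bones, benzels and their tilings.
-/

namespace Pool.Agent.Lib.MP_b072c6_co

/-- A cell of the hexagonal tiling is a triple `(i, j, k)` of integers with `i + j + k = 1`. -/
def IsCell (c : ℤ × ℤ × ℤ) : Prop := c.1 + c.2.1 + c.2.2 = 1

/-- Two cells are adjacent iff `|i - i'| + |j - j'| + |k - k'| = 2`. -/
def Adj (c c' : ℤ × ℤ × ℤ) : Prop :=
  |c.1 - c'.1| + |c.2.1 - c'.2.1| + |c.2.2 - c'.2.2| = 2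

/-- The `(a, b)`-benzel: the set of all cells `(i, j, k)` such that `j - i`, `k - j` and `i - k`
all lie between `-(a - 1)` and `b - 1`. -/
def benzel (a b : ℤ) : Set (ℤ × ℤ × ℤ) :=
  {c | IsCell c ∧ (-(a - 1) ≤ c.2.1 - c.1 ∧ c.2.1 - c.1 ≤ b - 1) ∧
    (-(a - 1) ≤ c.2.2 - c.2.1 ∧ c.2.2 - c.2.1 ≤ b - 1) ∧
    (-(a - 1) ≤ c.1 - c.2.2 ∧ c.1 - c.2.2 ≤ b - 1)}

/-- A stone is a set of three pairwise adjacent cells. -/
def IsStone (t : Set (ℤ × ℤ × ℤ)) : Prop :=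
  ∃ c₁ c₂ c₃, IsCell c₁ ∧ IsCell c₂ ∧ IsCell c₃ ∧ Adj c₁ c₂ ∧ Adj c₁ c₃ ∧ Adj c₂ c₃ ∧
    t = {c₁, c₂, c₃}

/-- A bone is a set `{c - d, c, c + d}` where `c` is a cell and `d` is a permutation of
`(1, -1, 0)`. -/
def IsBone (t : Set (ℤ × ℤ × ℤ)) : Prop :=
  ∃ c d, IsCell c ∧ d ∈ ({(1, -1, 0), (-1, 1, 0), (1, 0, -1), (-1, 0, 1), (0, 1, -1), (0, -1, 1)} :
    Set (ℤ × ℤ × ℤ)) ∧ t = {c - d, c, c + d}

/-- `T` is a partition of the `(a, b)`-benzel into stones and bones. -/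
def IsTiling (a b : ℤ) (T : Set (Set (ℤ × ℤ × ℤ))) : Prop :=
  (∀ t ∈ T, IsStone t ∨ IsBone t) ∧ T.PairwiseDisjoint id ∧ ⋃₀ T = benzel a b

/-- The number of partitions of the `(a, b)`-benzel into stones and bones. -/
noncomputable def T113 (a b : ℤ) : ℕ := Set.ncard {T | IsTiling a b T}

end Pool.Agent.Lib.MP_b072c6_co
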