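import Mathlib

/-!
Structure of the exact covers of the (site, colour) region by `R`- and `D`-tiles:
they are in bijection with compatible triples of words.
-/

namespace Pool.Agent.Lib.MP_b072c6_co

/-- Sites: integer vectors with three coordinates. -/
abbrev Site := Fin 3 → ℤ

/-- The step of type `l` with letter `e`. -/
def step (l e : Fin 3) : Site := fun r =>
  if r = l then (if e = 2 then 0 else -1)
  else if r = l + 1 then (if e = 1 then 0 else 1)
  else (if e = 0 then 0 else if e = 1 then 1 else -1)

/-- The corner number `l` of the triangle of size `m`. -/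
def corner (m : ℤ) (l : Fin 3) : Site := fun r => if r = l then m else 0

/-- The triangle of size `m`. -/
def InD (m : ℤ) (s : Site) : Prop := (∀ r, 0 ≤ s r) ∧ s 0 + s 1 + s 2 = m

/-- Tiles: three cells of one site, or two cells of a site and one of a neighbour. -/
inductive Tile
  | R (s : Site)
  | D (l e : Fin 3) (s : Site)

/-- The tile `t` covers the cell of colour `c` at the site `s`. -/
def Cov : Tile → Site → Fin 3 → Prop
  | Tile.R s0, s, _ => s = s0
  | Tile.D l e s0, s, c => (s = s0 ∧ c ≠ l) ∨ (s = s0 + step l e ∧ c = l)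

/-- The region: all cells of the triangle except colour `l` at corner `l`. -/
def Reg (m : ℤ) (s : Site) (c : Fin 3) : Prop := InD m s ∧ s c ≠ m

/-- Exact covers. -/
structure Good (m : ℤ) (T : Set Tile) : Prop where
  inr : ∀ t ∈ T, ∀ s c, Cov t s c → Reg m s c
  cov : ∀ s c, Reg m s c → ∃ t ∈ T, Cov t s c
  uniq : ∀ t ∈ T, ∀ t' ∈ T, ∀ s c, Cov t s c → Cov t' s c → t = t'

/-! ### basic facts -/

theorem three (l c : Fin 3) : c = l ∨ c = l + 1 ∨ c = l + 2 := by revert l c; decide

theorem l_ne1 (l : Fin 3) : l ≠ l + 1 := by revert l; decide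
theorem l_ne2 (l : Fin 3) : l ≠ l + 2 := by revert l; decide
theorem l_ne3 (l : Fin 3) : l + 1 ≠ l + 2 := by revert l; decide
theorem l_12 (l : Fin 3) : l + 1 + 2 = l := by revert l; decide
theorem l_11 (l : Fin 3) : l + 1 + 1 = l + 2 := by revert l; decide
theorem l_21 (l : Fin 3) : l + 2 + 1 = l := by revert l; decide
theorem l_22 (l : Fin 3) : l + 2 + 2 = l + 1 := by revert l; decide

theorem site_ext (l : Fin 3) {s s' : Site} (h0 : s l = s' l) (h1 : s (l + 1) = s' (l + 1))
    (h2 : s (l + 2) = s' (l + 2)) : s = s' := by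
  funext r
  rcases three l r with rfl | rfl | rfl
  · exact h0
  · exact h1
  · exact h2

theorem sum_eq (l : Fin 3) (s : Site) : s l + s (l + 1) + s (l + 2) = s 0 + s 1 + s 2 := by
  fin_cases l
  · simp
  · simp only [Fin.mk_one, Fin.reduceAdd]; ring
  · simp only [Fin.reduceFinMk, Fin.reduceAdd]; ring

theorem InD.sum {m : ℤ} {s : Site} (h : InD m s) (l : Fin 3) : s l + s (l + 1) + s (l + 2) = m := by
  rw [sum_eq, h.2]

theorem InD.of (l : Fin 3) {m : ℤ} {s : Site} (h0 : 0 ≤ s l) (h1 : 0 ≤ s (l + 1)) (h2 : 0 ≤ s (l + 2))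
    (h : s l + s (l + 1) + s (l + 2) = m) : InD m s := by
  refine ⟨fun r => ?_, by rw [← sum_eq l, h]⟩
  rcases three l r with rfl | rfl | rfl <;> assumption

theorem corner_self (m : ℤ) (l : Fin 3) : corner m l l = m := by simp [corner]
theorem corner_1 (m : ℤ) (l : Fin 3) : corner m l (l + 1) = 0 := by simp [corner]
theorem corner_2 (m : ℤ) (l : Fin 3) : corner m l (l + 2) = 0 := by
  simp only [corner]; rw [if_neg (l_ne2 l).symm]

theorem corner_InD {m : ℤ} (hm : 0 ≤ m) (l : Fin 3) : InD m (corner m l) := by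
  apply InD.of l
  · rw [corner_self]; exact hm
  · rw [corner_1]
  · rw [corner_2]
  · rw [corner_self, corner_1, corner_2]; ring

theorem eq_corner {m : ℤ} {s : Site} (h : InD m s) {l : Fin 3} (hl : s l = m) : s = corner m l := by
  have h1 := h.1 (l + 1)
  have h2 := h.1 (l + 2)
  have h3 := h.sum l
  apply site_ext l
  · rw [corner_self, hl]
  · rw [corner_1]; omega
  · rw [corner_2]; omega

theorem step_0 (l e : Fin 3) : step l e l = if e = 2 then 0 else -1 := by simp [step]
theorem step_1 (l e : Fin 3) : step l e (l + 1) = if e = 1 then 0 else 1 := by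
  unfold step; rw [if_neg (l_ne1 l).symm, if_pos rfl]
theorem step_2 (l e : Fin 3) : step l e (l + 2) = if e = 0 then 0 else if e = 1 then 1 else -1 := by
  unfold step; rw [if_neg (l_ne2 l).symm, if_neg (l_ne3 l).symm]

theorem shared_step (l : Fin 3) : step l 1 = step (l + 1) 2 := by
  revert l; decide

theorem exists_other (l l' : Fin 3) : ∃ c, c ≠ l ∧ c ≠ l' := by revert l l'; decide

/-! ### facts about exact covers -/

section good

variable {m : ℤ} {T : Set Tile} (hT : Good m T)

include hT

theorem Good.major {l e : Fin 3} {s : Site} (h : Tile.D l e s ∈ T) : InD m s :=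
  (hT.inr _ h s (l + 1) (Or.inl ⟨rfl, (l_ne1 l).symm⟩)).1

theorem Good.minor {l e : Fin 3} {s : Site} (h : Tile.D l e s ∈ T) : InD m (s + step l e) :=
  (hT.inr _ h (s + step l e) l (Or.inr ⟨rfl, rfl⟩)).1

theorem Good.major_uniq {l e l' e' : Fin 3} {s : Site} (h : Tile.D l e s ∈ T)
    (h' : Tile.D l' e' s ∈ T) : l = l' ∧ e = e' := by
  obtain ⟨c, h1, h2⟩ := exists_other l l'
  have := hT.uniq _ h _ h' s c (Or.inl ⟨rfl, h1⟩) (Or.inl ⟨rfl, h2⟩)
  injection this with a b
  exact ⟨a, b⟩

theorem Good.R_D {l e : Fin 3} {s : Site} (h : Tile.D l e s ∈ T) (h' : Tile.R s ∈ T) : False := by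
  have := hT.uniq _ h _ h' s (l + 1) (Or.inl ⟨rfl, (l_ne1 l).symm⟩) rfl
  injection this

/-- The site `s` is reached by the path of type `l`. -/
def E (m : ℤ) (T : Set Tile) (l : Fin 3) (s : Site) : Prop :=
  s = corner m l ∨ ∃ e s0, Tile.D l e s0 ∈ T ∧ s0 + step l e = s

theorem Good.E_R {l : Fin 3} {s : Site} (h : E m T l s) (h' : Tile.R s ∈ T) : False := by
  rcases h with rfl | ⟨e, s0, h, rfl⟩
  · exact (hT.inr _ h' _ l rfl).2 (corner_self m l)
  · have := hT.uniq _ h _ h' (s0 + step l e) l (Or.inr ⟨rfl, rfl⟩) rfl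
    injection this

theorem Good.E_D {l l' e' : Fin 3} {s : Site} (h : E m T l s) (h' : Tile.D l' e' s ∈ T) : l' = l := by
  by_contra hne
  rcases h with rfl | ⟨e, s0, h, rfl⟩
  · exact (hT.inr _ h' _ l (Or.inl ⟨rfl, fun h => hne h.symm⟩)).2 (corner_self m l)
  · have := hT.uniq _ h _ h' (s0 + step l e) l (Or.inr ⟨rfl, rfl⟩) (Or.inl ⟨rfl, fun h => hne h.symm⟩)
    injection this with a b
    exact hne a.symm

/-- Three paths meet. -/
def Sink (m : ℤ) (T : Set Tile) (s : Site) : Prop := ∀ l, E m T l s

theorem Good.sink_D {l e : Fin 3} {s : Site} (h : Sink m T s) (h' : Tile.D l e s ∈ T) : False :=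
  l_ne1 l (hT.E_D (h (l + 1)) h')

theorem Good.forward {l : Fin 3} {s : Site} (hs : InD m s) (h : E m T l s) :
    (∃ e, Tile.D l e s ∈ T) ∨ Sink m T s := by
  by_cases hD : ∃ e, Tile.D l e s ∈ T
  · exact Or.inl hD
  · refine Or.inr fun c => ?_
    by_cases hr : s c = m
    · exact Or.inl (eq_corner hs hr)
    · obtain ⟨t, ht, hc⟩ := hT.cov s c ⟨hs, hr⟩
      cases t with
      | R s0 =>
        simp only [Cov] at hc
        subst hc
        exact (hT.E_R h ht).elim
      | D l' e' s0 =>
        rcases hc with ⟨rfl, _⟩ | ⟨rfl, rfl⟩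
        · have := hT.E_D h ht
          subst this
          exact (hD ⟨_, ht⟩).elim
        · exact Or.inr ⟨e', s0, ht, rfl⟩

theorem Good.backward {l e : Fin 3} {s : Site} (h : Tile.D l e s ∈ T) : E m T l s := by
  have hs := hT.major h
  by_cases hr : s l = m
  · exact Or.inl (eq_corner hs hr)
  · obtain ⟨t, ht, hc⟩ := hT.cov s l ⟨hs, hr⟩
    cases t with
    | R s0 =>
      simp only [Cov] at hc
      subst hc
      exact (hT.R_D h ht).elim
    | D l' e' s0 =>
      rcases hc with ⟨rfl, hne⟩ | ⟨rfl, rfl⟩
      · exact (hne (hT.major_uniq h ht).1).elim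
      · exact Or.inr ⟨e', s0, ht, rfl⟩

end good

/-! ### words -/

/-- The abscissa of the end of a word (the head of the list is the last letter). -/
def P : List (Fin 3) → ℤ
  | [] => 0
  | e :: w => P w + (if e = 0 then 0 else if e = 1 then 1 else -1)

/-- The ordinate of the end of a word. -/
def Q : List (Fin 3) → ℤ
  | [] => 0
  | e :: w => Q w + (if e = 1 then 0 else 1)

/-- The end of the path of type `l` with word `w`. -/
def pos (m : ℤ) (l : Fin 3) (w : List (Fin 3)) : Site := fun r =>
  if r = l then m - P w - Q w else if r = l + 1 then Q w else P w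

/-- The abscissa stays nonnegative. -/
def Valid (w : List (Fin 3)) : Prop := ∀ u, u <:+ w → 0 ≤ P u

theorem pos_0 (m : ℤ) (l : Fin 3) (w : List (Fin 3)) : pos m l w l = m - P w - Q w := by simp [pos]
theorem pos_1 (m : ℤ) (l : Fin 3) (w : List (Fin 3)) : pos m l w (l + 1) = Q w := by
  unfold pos; rw [if_neg (l_ne1 l).symm, if_pos rfl]
theorem pos_2 (m : ℤ) (l : Fin 3) (w : List (Fin 3)) : pos m l w (l + 2) = P w := by
  unfold pos; rw [if_neg (l_ne2 l).symm, if_neg (l_ne3 l).symm]

theorem pos_sum (m : ℤ) (l : Fin 3) (w : List (Fin 3)) :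
    pos m l w 0 + pos m l w 1 + pos m l w 2 = m := by
  rw [← sum_eq l, pos_0, pos_1, pos_2]; ring

theorem pos_nil (m : ℤ) (l : Fin 3) : pos m l [] = corner m l := by
  apply site_ext l
  · rw [pos_0, corner_self]; simp [P, Q]
  · rw [pos_1, corner_1]; simp [Q]
  · rw [pos_2, corner_2]; simp [P]

theorem pos_cons (m : ℤ) (l e : Fin 3) (w : List (Fin 3)) :
    pos m l (e :: w) = pos m l w + step l e := by
  apply site_ext l
  · rw [Pi.add_apply, pos_0, pos_0, step_0]
    simp only [P, Q]
    fin_cases e <;> simp <;> ring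
  · rw [Pi.add_apply, pos_1, pos_1, step_1]
    simp only [Q]
  · rw [Pi.add_apply, pos_2, pos_2, step_2]
    simp only [P]

/-- The word `w` of type `l` is followed by the tiles of `T`. -/
def InT (m : ℤ) (T : Set Tile) (l : Fin 3) (w : List (Fin 3)) : Prop :=
  ∀ e u, (e :: u) <:+ w → Tile.D l e (pos m l u) ∈ T

theorem InT.suffix {m : ℤ} {T : Set Tile} {l : Fin 3} {w u : List (Fin 3)} (h : InT m T l w)
    (hu : u <:+ w) : InT m T l u := fun e v hv => h e v (hv.trans hu)

theorem InT.nil (m : ℤ) (T : Set Tile) (l : Fin 3) : InT m T l [] := by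
  intro e u h
  simp at h

theorem InT.cons {m : ℤ} {T : Set Tile} {l e : Fin 3} {w : List (Fin 3)} (h : InT m T l w)
    (hD : Tile.D l e (pos m l w) ∈ T) : InT m T l (e :: w) := by
  intro e' u hu
  rcases List.suffix_cons_iff.1 hu with h1 | h1
  · injection h1 with a b
    subst a; subst b
    exact hD
  · exact h _ _ h1

section good2

variable {m : ℤ} {T : Set Tile} (hT : Good m T) (hm : 0 ≤ m)

include hT hm

theorem Good.InT_InD {l : Fin 3} {w : List (Fin 3)} (h : InT m T l w) : InD m (pos m l w) := by
  cases w with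
  | nil => rw [pos_nil]; exact corner_InD hm l
  | cons e u => rw [pos_cons]; exact hT.minor (h e u List.suffix_rfl)

omit hT hm in
theorem InT.E {l : Fin 3} {w : List (Fin 3)} (h : InT m T l w) : E m T l (pos m l w) := by
  cases w with
  | nil => rw [pos_nil]; exact Or.inl rfl
  | cons e u => rw [pos_cons]; exact Or.inr ⟨e, _, h e u List.suffix_rfl, rfl⟩

omit hm in
theorem Good.suffix_total {l : Fin 3} {w w' : List (Fin 3)} (h : InT m T l w) (h' : InT m T l w') :
    w <:+ w' ∨ w' <:+ w := by
  induction w with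
  | nil => exact Or.inl List.nil_suffix
  | cons e u ih =>
    rcases ih (h.suffix (List.suffix_cons e u)) with h1 | h1
    · obtain ⟨v, rfl⟩ := h1
      rcases List.eq_nil_or_concat' v with rfl | ⟨v', e', rfl⟩
      · right
        exact List.suffix_cons e u
      · left
        have h2 : (e' :: u) <:+ (v' ++ [e'] ++ u) := ⟨v', by simp⟩
        have h3 := h' e' u h2
        have h4 := h e u List.suffix_rfl
        obtain ⟨_, rfl⟩ := hT.major_uniq h3 h4
        exact h2
    · right
      exact h1.trans (List.suffix_cons e u)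

omit hT hm in
/-- potential -/
theorem step_pot (l e : Fin 3) : 1 ≤ step l e (l + 1) - step l e l := by
  revert l e; decide

omit hm in
theorem Good.word_of_E {l : Fin 3} {s : Site} (hs : InD m s) (h : E m T l s) :
    ∃ w, InT m T l w ∧ pos m l w = s := by
  -- strong induction on the potential
  have key : ∀ n : ℕ, ∀ s, InD m s → E m T l s → m + s (l + 1) - s l ≤ n →
      ∃ w, InT m T l w ∧ pos m l w = s := by
    intro n
    induction n with
    | zero =>
      intro s hs h hn
      have h1 := hs.1 (l + 1)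
      have h2 := hs.1 (l + 2)
      have h3 := hs.sum l
      refine ⟨[], InT.nil _ _ _, ?_⟩
      rw [pos_nil]
      exact (eq_corner hs (by push_cast at hn; omega)).symm
    | succ n ih =>
      intro s hs h hn
      rcases h with rfl | ⟨e, s0, h, rfl⟩
      · exact ⟨[], InT.nil _ _ _, pos_nil m l⟩
      · have hb := hT.backward h
        have hs0 := hT.major h
        have hst := step_pot l e
        rw [Pi.add_apply, Pi.add_apply] at hn
        push_cast at hn
        obtain ⟨w, hw, hp⟩ := ih s0 hs0 hb (by omega)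
        refine ⟨e :: w, hw.cons (by rw [hp]; exact h), ?_⟩
        rw [pos_cons, hp]
  exact key (m + s (l + 1) - s l).toNat s hs h (Int.self_le_toNat _)

omit hT hm in
theorem length_le (l : Fin 3) (w : List (Fin 3)) :
    (w.length : ℤ) ≤ m + pos m l w (l + 1) - pos m l w l := by
  induction w with
  | nil => rw [pos_nil, corner_self, corner_1]; simp
  | cons e w ih =>
    rw [pos_cons, Pi.add_apply, Pi.add_apply]
    have := step_pot l e
    simp only [List.length_cons]
    push_cast
    omega

theorem Good.exists_sink (l : Fin 3) : ∃ w, InT m T l w ∧ Sink m T (pos m l w) := by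
  by_contra hno
  have key : ∀ n : ℕ, ∃ w, InT m T l w ∧ n ≤ w.length := by
    intro n
    induction n with
    | zero => exact ⟨[], InT.nil _ _ _, by simp⟩
    | succ n ih =>
      obtain ⟨w, hw, hl⟩ := ih
      rcases hT.forward (hT.InT_InD hm hw) hw.E with ⟨e, he⟩ | hsink
      · exact ⟨e :: w, hw.cons he, by simp; exact hl⟩
      · exact (hno ⟨w, hw, hsink⟩).elim
  obtain ⟨w, hw, hl⟩ := key (2 * m + 1).toNat
  have h1 := length_le (m := m) l w
  have hD := hT.InT_InD hm hw
  have h2 := hD.1 l
  have h3 := hD.1 (l + 1)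
  have h4 := hD.1 (l + 2)
  have h5 := hD.sum l
  omega

end good2

/-! ### compatible triples of words -/

/-- Compatible triples of words. -/
structure Compat (m : ℤ) (w : Fin 3 → List (Fin 3)) : Prop where
  valid : ∀ l, Valid (w l)
  ends : ∀ l l', pos m l (w l) = pos m l' (w l')
  inD : ∀ l, InD m (pos m l (w l))
  sep : ∀ l, ¬ ((w l).head? = some 1 ∧ (w (l + 1)).head? = some 2)

/-- The cover attached to a triple of words. -/
def Psi (m : ℤ) (w : Fin 3 → List (Fin 3)) : Set Tile :=
  {t | (∃ l e u, (e :: u) <:+ w l ∧ t = Tile.D l e (pos m l u)) ∨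
    (∃ s, InD m s ∧ (∀ l u, u <:+ w l → pos m l u ≠ s) ∧ t = Tile.R s)}

theorem mem_Psi_D {m : ℤ} {w : Fin 3 → List (Fin 3)} {l e : Fin 3} {s : Site} :
    Tile.D l e s ∈ Psi m w ↔ ∃ u, (e :: u) <:+ w l ∧ s = pos m l u := by
  constructor
  · rintro (⟨l', e', u, h, h2⟩ | ⟨s', _, _, h2⟩)
    · injection h2 with a b c
      subst a; subst b
      exact ⟨u, h, c⟩
    · injection h2
  · rintro ⟨u, h, rfl⟩
    exact Or.inl ⟨l, e, u, h, rfl⟩

theorem mem_Psi_R {m : ℤ} {w : Fin 3 → List (Fin 3)} {s : Site} :
    Tile.R s ∈ Psi m w ↔ InD m s ∧ ∀ l u, u <:+ w l → pos m l u ≠ s := by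
  constructor
  · rintro (⟨l', e', u, h, h2⟩ | ⟨s', h, h', h2⟩)
    · injection h2
    · injection h2 with a
      subst a
      exact ⟨h, h'⟩
  · rintro ⟨h, h'⟩
    exact Or.inr ⟨s, h, h', rfl⟩

theorem Good.exists_compat {m : ℤ} {T : Set Tile} (hT : Good m T) (hm : 0 ≤ m) :
    ∃ w, Compat m w ∧ T = Psi m w := by
  obtain ⟨w0, hw0, hsink⟩ := hT.exists_sink hm 0
  obtain ⟨z, rfl⟩ : ∃ z, z = pos m 0 w0 := ⟨_, rfl⟩
  have hz := hT.InT_InD hm hw0
  have hex : ∀ l, ∃ w, InT m T l w ∧ pos m l w = pos m 0 w0 := fun l => hT.word_of_E hz (hsink l)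
  choose w hw hpos using hex
  -- maximality
  have hmax : ∀ l u, InT m T l u → u <:+ w l := by
    intro l u hu
    rcases hT.suffix_total hu (hw l) with h | h
    · exact h
    · obtain ⟨v, rfl⟩ := h
      rcases List.eq_nil_or_concat' v with rfl | ⟨v', e', rfl⟩
      · exact List.suffix_rfl
      · exfalso
        have h2 : (e' :: w l) <:+ (v' ++ [e'] ++ w l) := ⟨v', by simp⟩
        have h3 := hu e' (w l) h2
        rw [hpos] at h3
        exact hT.sink_D hsink h3
  refine ⟨w, ⟨?_, ?_, ?_, ?_⟩, ?_⟩
  · intro l u hu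
    have := (hT.InT_InD hm ((hw l).suffix hu)).1 (l + 2)
    rwa [pos_2] at this
  · intro l l'
    rw [hpos, hpos]
  · intro l
    rw [hpos]; exact hz
  · rintro l ⟨h1, h2⟩
    obtain ⟨u, hu⟩ : ∃ u, w l = 1 :: u := by
      rw [List.head?_eq_some_iff] at h1; exact h1
    obtain ⟨u', hu'⟩ : ∃ u, w (l + 1) = 2 :: u := by
      rw [List.head?_eq_some_iff] at h2; exact h2
    have h3 := hw l 1 u (by rw [hu])
    have h4 := hw (l + 1) 2 u' (by rw [hu'])
    have h5 : pos m l u = pos m (l + 1) u' := by
      have h6 := hpos l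
      have h7 := hpos (l + 1)
      rw [hu, pos_cons] at h6
      rw [hu', pos_cons, ← shared_step] at h7
      rw [← h7] at h6
      exact add_right_cancel h6
    rw [← h5] at h4
    exact l_ne1 l (hT.major_uniq h3 h4).1
  · ext t
    cases t with
    | D l e s =>
      rw [mem_Psi_D]
      constructor
      · intro h
        obtain ⟨u, hu, rfl⟩ := hT.word_of_E (hT.major h) (hT.backward h)
        exact ⟨u, hmax l _ (hu.cons h), rfl⟩
      · rintro ⟨u, hu, rfl⟩
        exact hw l e u hu
    | R s =>
      rw [mem_Psi_R]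
      constructor
      · intro h
        refine ⟨(hT.inr _ h s 0 rfl).1, fun l u hu hs => ?_⟩
        have h2 := ((hw l).suffix hu).E
        rw [hs] at h2
        exact hT.E_R h2 h
      · rintro ⟨hs, hno⟩
        by_cases hr : s 0 = m
        · exfalso
          apply hno 0 [] List.nil_suffix
          rw [pos_nil]
          exact (eq_corner hs hr).symm
        · obtain ⟨t, ht, hc⟩ := hT.cov s 0 ⟨hs, hr⟩
          cases t with
          | R s0 =>
            simp only [Cov] at hc
            subst hc
            exact ht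
          | D l e s0 =>
            exfalso
            obtain ⟨u, hu, rfl⟩ := hT.word_of_E (hT.major ht) (hT.backward ht)
            have h2 := hmax l _ (hu.cons ht)
            rcases hc with ⟨rfl, _⟩ | ⟨rfl, _⟩
            · exact hno l u ((List.suffix_cons e u).trans h2) rfl
            · exact hno l (e :: u) h2 (pos_cons _ _ _ _)

theorem mono {m : ℤ} {l : Fin 3} {u w : List (Fin 3)} (h : u <:+ w) :
    pos m l w l ≤ pos m l u l ∧ pos m l u (l + 1) ≤ pos m l w (l + 1) ∧
    (w.length : ℤ) - u.length ≤ (pos m l w (l + 1) - pos m l w l) - (pos m l u (l + 1) - pos m l u l) := by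
  induction w with
  | nil =>
    have : u = [] := List.suffix_nil.1 h
    subst this
    simp
  | cons e w ih =>
    rcases List.suffix_cons_iff.1 h with rfl | h1
    · simp
    · obtain ⟨a, b, c⟩ := ih h1
      have hst := step_pot l e
      have h0 : step l e l ≤ 0 := by rw [step_0]; split_ifs <;> omega
      have h1 : 0 ≤ step l e (l + 1) := by rw [step_1]; split_ifs <;> omega
      rw [pos_cons, Pi.add_apply, Pi.add_apply]
      simp only [List.length_cons]
      push_cast
      refine ⟨by omega, by omega, by omega⟩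

theorem suffix_eq_of_pos {m : ℤ} {l : Fin 3} {u u' w : List (Fin 3)} (h : u <:+ w) (h' : u' <:+ w)
    (hp : pos m l u = pos m l u') : u = u' := by
  rcases List.suffix_or_suffix_of_suffix h h' with h1 | h1
  · have := (mono (m := m) (l := l) h1).2.2
    rw [hp] at this
    exact h1.eq_of_length_le (by omega)
  · have := (mono (m := m) (l := l) h1).2.2
    rw [hp] at this
    exact (h1.eq_of_length_le (by omega)).symm

section compat

variable {m : ℤ} {w : Fin 3 → List (Fin 3)} (hw : Compat m w)

include hw

theorem Compat.pos_InD {l : Fin 3} {u : List (Fin 3)} (hu : u <:+ w l) : InD m (pos m l u) := by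
  have h1 := mono (m := m) (l := l) hu
  have h2 := (hw.inD l).1 l
  have h3 := mono (m := m) (l := l) (List.nil_suffix (l := u))
  rw [pos_nil, corner_self, corner_1] at h3
  have h4 := hw.valid l u hu
  apply InD.of l
  · omega
  · omega
  · rw [pos_2]; exact h4
  · rw [sum_eq, pos_sum]

theorem Compat.disj1 {l : Fin 3} {u u' : List (Fin 3)} (hu : u <:+ w l) (hu' : u' <:+ w (l + 1))
    (hp : pos m l u = pos m (l + 1) u') : u = w l ∧ u' = w (l + 1) := by
  have hends := hw.ends l (l + 1)
  obtain ⟨a1, a2, a3⟩ := mono (m := m) (l := l) hu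
  obtain ⟨b1, b2, b3⟩ := mono (m := m) (l := l + 1) hu'
  by_cases hul : u = w l
  · refine ⟨hul, ?_⟩
    subst hul
    exact suffix_eq_of_pos (m := m) (l := l + 1) hu' List.suffix_rfl (by rw [← hp, hends])
  · exfalso
    have hul' : u' ≠ w (l + 1) := by
      rintro rfl
      exact hul (suffix_eq_of_pos (m := m) (l := l) hu List.suffix_rfl (by rw [hp, ← hends]))
    -- heads
    have hh1 : (w l).head? = some 1 := by
      cases hwl : w l with
      | nil => rw [hwl] at hu hul; exact (hul (List.suffix_nil.1 hu)).elim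
      | cons e v =>
        rw [hwl] at hu hul
        have hv : u <:+ v := (List.suffix_cons_iff.1 hu).resolve_left hul
        obtain ⟨c1, c2, c3⟩ := mono (m := m) (l := l) hv
        have hst := step_1 l e
        rw [hwl, pos_cons] at hends
        have h5 : (pos m l v + step l e) (l + 1) = pos m (l + 1) (w (l + 1)) (l + 1) := by rw [hends]
        rw [Pi.add_apply] at h5
        rw [hp] at c2
        have h0 : step l e (l + 1) = 0 := by
          have : 0 ≤ step l e (l + 1) := by rw [hst]; split_ifs <;> omega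
          omega
        rw [hst] at h0
        have : e = 1 := by by_contra hne; rw [if_neg hne] at h0; omega
        rw [this]; rfl
    have hh2 : (w (l + 1)).head? = some 2 := by
      cases hwl : w (l + 1) with
      | nil => rw [hwl] at hu' hul'; exact (hul' (List.suffix_nil.1 hu')).elim
      | cons e v =>
        rw [hwl] at hu' hul'
        have hv : u' <:+ v := (List.suffix_cons_iff.1 hu').resolve_left hul'
        obtain ⟨c1, c2, c3⟩ := mono (m := m) (l := l + 1) hv
        have hst := step_0 (l + 1) e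
        rw [hwl, pos_cons] at hends
        have h5 : pos m l (w l) (l + 1) = (pos m (l + 1) v + step (l + 1) e) (l + 1) := by rw [hends]
        rw [Pi.add_apply] at h5
        rw [← hp] at c1
        have h0 : step (l + 1) e (l + 1) = 0 := by
          have : step (l + 1) e (l + 1) ≤ 0 := by rw [hst]; split_ifs <;> omega
          omega
        rw [hst] at h0
        have : e = 2 := by by_contra hne; rw [if_neg hne] at h0; omega
        rw [this]; rfl
    exact hw.sep l ⟨hh1, hh2⟩

theorem Compat.disj {l l' : Fin 3} (hll : l ≠ l') {u u' : List (Fin 3)} (hu : u <:+ w l)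
    (hu' : u' <:+ w l') (hp : pos m l u = pos m l' u') : u = w l ∧ u' = w l' := by
  rcases three l l' with rfl | rfl | rfl
  · exact (hll rfl).elim
  · exact hw.disj1 hu hu' hp
  · have hu2 : u <:+ w (l + 2 + 1) := by rw [l_21]; exact hu
    have hp2 : pos m (l + 2) u' = pos m (l + 2 + 1) u := by rw [l_21]; exact hp.symm
    have := hw.disj1 hu' hu2 hp2
    rw [l_21] at this
    exact this.symm

/-- A nonfinal position of a path is on no other path. -/
theorem Compat.disj_nonfinal {l l' e : Fin 3} {u u' : List (Fin 3)} (hu : (e :: u) <:+ w l)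
    (hu' : u' <:+ w l') (hp : pos m l u = pos m l' u') : l = l' := by
  by_contra hll
  have h1 := (hw.disj hll ((List.suffix_cons e u).trans hu) hu' hp).1
  rw [← h1] at hu
  have := hu.length_le
  simp at this

theorem Compat.good : Good m (Psi m w) := by
  refine ⟨?_, ?_, ?_⟩
  · intro t ht s c hc
    cases t with
    | D l e s0 =>
      obtain ⟨u, hu, rfl⟩ := mem_Psi_D.1 ht
      rcases hc with ⟨rfl, hne⟩ | ⟨rfl, rfl⟩
      · have hu2 : u <:+ w l := (List.suffix_cons e u).trans hu
        have hD := hw.pos_InD hu2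
        refine ⟨hD, fun hc => ?_⟩
        have h1 := eq_corner hD hc
        rw [← pos_nil] at h1
        exact hne (hw.disj_nonfinal hu List.nil_suffix h1).symm
      · rw [← pos_cons]
        have hD := hw.pos_InD hu
        refine ⟨hD, fun hc => ?_⟩
        have h1 := eq_corner hD hc
        rw [← pos_nil] at h1
        have := suffix_eq_of_pos hu List.nil_suffix h1
        simp at this
    | R s0 =>
      obtain ⟨h1, h2⟩ := mem_Psi_R.1 ht
      simp only [Cov] at hc
      subst hc
      refine ⟨h1, fun hc => ?_⟩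
      exact h2 c [] List.nil_suffix (by rw [pos_nil]; exact (eq_corner h1 hc).symm)
  · intro s c hr
    by_cases hvis : ∃ l u, u <:+ w l ∧ pos m l u = s
    · obtain ⟨l, u, hu, rfl⟩ := hvis
      -- a path of type c reaching the site gives a cover
      have hcov : ∀ u', u' <:+ w c → pos m c u' = pos m l u → ∃ t ∈ Psi m w, Cov t (pos m l u) c := by
        intro u' hu' hp
        cases u' with
        | nil =>
          exfalso
          rw [pos_nil] at hp
          apply hr.2
          rw [← hp, corner_self]
        | cons e v =>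
          refine ⟨Tile.D c e (pos m c v), mem_Psi_D.2 ⟨v, hu', rfl⟩, Or.inr ⟨?_, rfl⟩⟩
          rw [← hp, pos_cons]
      by_cases hlc : c = l
      · subst hlc
        exact hcov u hu rfl
      · by_cases hfin : u = w l
        · subst hfin
          exact hcov (w c) List.suffix_rfl (hw.ends c l)
        · obtain ⟨v, hv⟩ := hu
          rcases List.eq_nil_or_concat' v with rfl | ⟨v', e', rfl⟩
          · exact (hfin (by simpa using hv)).elim
          · refine ⟨Tile.D l e' (pos m l u), mem_Psi_D.2 ⟨u, ⟨v', by simpa using hv⟩, rfl⟩, Or.inl ⟨rfl, hlc⟩⟩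
    · push Not at hvis
      exact ⟨Tile.R s, mem_Psi_R.2 ⟨hr.1, hvis⟩, rfl⟩
  · intro t ht t' ht' s c hc hc'
    cases t with
    | R s0 =>
      obtain ⟨h1, h2⟩ := mem_Psi_R.1 ht
      simp only [Cov] at hc
      subst hc
      cases t' with
      | R s1 =>
        simp only [Cov] at hc'
        rw [hc']
      | D l e s1 =>
        exfalso
        obtain ⟨u, hu, rfl⟩ := mem_Psi_D.1 ht'
        rcases hc' with ⟨h3, _⟩ | ⟨h3, _⟩
        · exact h2 l u ((List.suffix_cons e u).trans hu) h3.symm
        · exact h2 l (e :: u) hu (by rw [pos_cons]; exact h3.symm)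
    | D l e s0 =>
      obtain ⟨u, hu, rfl⟩ := mem_Psi_D.1 ht
      cases t' with
      | R s1 =>
        exfalso
        obtain ⟨h1, h2⟩ := mem_Psi_R.1 ht'
        simp only [Cov] at hc'
        subst hc'
        rcases hc with ⟨h3, _⟩ | ⟨h3, _⟩
        · exact h2 l u ((List.suffix_cons e u).trans hu) h3.symm
        · exact h2 l (e :: u) hu (by rw [pos_cons]; exact h3.symm)
      | D l' e' s1 =>
        obtain ⟨u', hu', rfl⟩ := mem_Psi_D.1 ht'
        rcases hc with ⟨rfl, hne⟩ | ⟨rfl, rfl⟩
        · rcases hc' with ⟨h3, hne'⟩ | ⟨h3, rfl⟩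
          · -- both major
            have hl := hw.disj_nonfinal hu ((List.suffix_cons e' u').trans hu') h3
            subst hl
            have hu2 := suffix_eq_of_pos ((List.suffix_cons e u).trans hu)
              ((List.suffix_cons e' u').trans hu') h3
            subst hu2
            have h5 : e :: u = e' :: u := by
              rcases List.suffix_or_suffix_of_suffix hu hu' with h | h
              · exact h.eq_of_length_le (by simp)
              · exact (h.eq_of_length_le (by simp)).symm
            injection h5 with h6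
            rw [h6]
          · exfalso
            rw [← pos_cons] at h3
            exact hne (hw.disj_nonfinal hu hu' h3).symm
        · rcases hc' with ⟨h3, hne'⟩ | ⟨h3, rfl⟩
          · exfalso
            rw [← pos_cons] at h3
            exact hne' (hw.disj_nonfinal hu' hu h3.symm).symm
          · rw [← pos_cons, ← pos_cons] at h3
            have h4 := suffix_eq_of_pos hu hu' h3
            injection h4 with h5 h6
            rw [h5, h6]

omit hw in
theorem Psi_InT (l : Fin 3) : InT m (Psi m w) l (w l) := by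
  intro e u hu
  exact mem_Psi_D.2 ⟨u, hu, rfl⟩

theorem Compat.sink (l : Fin 3) : Sink m (Psi m w) (pos m l (w l)) := by
  intro l'
  rw [hw.ends l l']
  exact (Psi_InT l').E

end compat

theorem Psi_inj {m : ℤ} {w w' : Fin 3 → List (Fin 3)} (hw : Compat m w) (hw' : Compat m w')
    (h : Psi m w = Psi m w') : w = w' := by
  have hT := hw.good
  have key : ∀ {w w' : Fin 3 → List (Fin 3)}, Compat m w → Compat m w' → Psi m w = Psi m w' →
      Good m (Psi m w) → ∀ l, w l <:+ w' l → w l = w' l := by
    intro w w' hw hw' h hT l h1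
    obtain ⟨v, hv⟩ := h1
    rcases List.eq_nil_or_concat' v with rfl | ⟨v', e', rfl⟩
    · simpa using hv
    · exfalso
      have h2 : (e' :: w l) <:+ w' l := ⟨v', by simpa using hv⟩
      have h3 : Tile.D l e' (pos m l (w l)) ∈ Psi m w' := Psi_InT l e' (w l) h2
      rw [← h] at h3
      exact hT.sink_D (hw.sink l) h3
  funext l
  have h1 : InT m (Psi m w) l (w l) := Psi_InT l
  have h2 : InT m (Psi m w') l (w' l) := Psi_InT l
  rw [← h] at h2
  rcases hT.suffix_total h1 h2 with h3 | h3
  · exact key hw hw' h hT l h3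
  · exact (key hw' hw h.symm (h ▸ hT) l h3).symm

theorem Psi_bijOn {m : ℤ} (hm : 0 ≤ m) : Set.BijOn (Psi m) {w | Compat m w} {T | Good m T} := by
  refine ⟨fun w hw => Compat.good hw, fun w hw w' hw' h => Psi_inj hw hw' h, fun T hT => ?_⟩
  obtain ⟨w, hw, rfl⟩ := Good.exists_compat hT hm
  exact ⟨w, hw, rfl⟩

end Pool.Agent.Lib.MP_b072c6_co
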