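import Mathlib
import Pool.Agent.Lib.MP_b072c6_co.Structure

/-!
The weights used to exclude tiles meeting three different sites.
-/

namespace Pool.Agent.Lib.MP_b072c6_co

/-- The weight functions. -/
def phi (k0 k1 k2 : ℤ) (c : Fin 3) (s : Site) : ℤ :=
  if c = 0 then
    2 * (-(if k0 ≤ s 0 then 1 else 0) + (if k1 ≤ s 1 then 1 else 0)) -
      (if s 0 < k0 ∧ s 1 < k1 then 1 else 0)
  else if c = 1 then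
    2 * (-(if k1 ≤ s 1 then 1 else 0) + (if k2 ≤ s 2 then 1 else 0)) +
      (if s 1 < k1 ∧ k2 ≤ s 2 then 1 else 0)
  else
    2 * (-(if k2 ≤ s 2 then 1 else 0) + (if k0 ≤ s 0 then 1 else 0)) +
      (if s 0 < k0 ∧ s 1 < k1 then 1 else 0) - (if s 1 < k1 ∧ k2 ≤ s 2 then 1 else 0)

/-- The five kinds of tiles meeting three sites. -/
def Bad (α β γ : Site) : Prop :=
  (β 0 = α 0 + 1 ∧ β 1 = α 1 - 1 ∧ β 2 = α 2 ∧ γ 0 = α 0 + 1 ∧ γ 1 = α 1 ∧ γ 2 = α 2 - 1) ∨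
  (β 0 = α 0 ∧ β 1 = α 1 - 1 ∧ β 2 = α 2 + 1 ∧ γ 0 = α 0 + 1 ∧ γ 1 = α 1 - 1 ∧ γ 2 = α 2) ∨
  (β 0 = α 0 + 1 ∧ β 1 = α 1 - 1 ∧ β 2 = α 2 ∧ γ 0 = α 0 + 2 ∧ γ 1 = α 1 - 1 ∧ γ 2 = α 2 - 1) ∨
  (β 0 = α 0 + 1 ∧ β 1 = α 1 - 2 ∧ β 2 = α 2 + 1 ∧ γ 0 = α 0 + 1 ∧ γ 1 = α 1 - 1 ∧ γ 2 = α 2) ∨
  (β 0 = α 0 ∧ β 1 = α 1 - 1 ∧ β 2 = α 2 + 1 ∧ γ 0 = α 0 + 1 ∧ γ 1 = α 1 ∧ γ 2 = α 2 - 1)

theorem phi_0 (k0 k1 k2 : ℤ) (s : Site) : phi k0 k1 k2 0 s =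
    2 * (-(if k0 ≤ s 0 then 1 else 0) + (if k1 ≤ s 1 then 1 else 0)) -
      (if s 0 < k0 ∧ s 1 < k1 then 1 else 0) := by simp [phi]

theorem phi_1 (k0 k1 k2 : ℤ) (s : Site) : phi k0 k1 k2 1 s =
    2 * (-(if k1 ≤ s 1 then 1 else 0) + (if k2 ≤ s 2 then 1 else 0)) +
      (if s 1 < k1 ∧ k2 ≤ s 2 then 1 else 0) := by simp [phi]

theorem phi_2 (k0 k1 k2 : ℤ) (s : Site) : phi k0 k1 k2 2 s =
    2 * (-(if k2 ≤ s 2 then 1 else 0) + (if k0 ≤ s 0 then 1 else 0)) +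
      (if s 0 < k0 ∧ s 1 < k1 then 1 else 0) - (if s 1 < k1 ∧ k2 ≤ s 2 then 1 else 0) := by simp [phi]

theorem phi_sum (k0 k1 k2 : ℤ) (s : Site) : phi k0 k1 k2 0 s + phi k0 k1 k2 1 s + phi k0 k1 k2 2 s = 0 := by
  rw [phi_0, phi_1, phi_2]; ring

theorem phi_bad_nonneg (m k0 k1 k2 : ℤ) (α β γ : Site) (hα : α 0 + α 1 + α 2 = m) (h : Bad α β γ) :
    0 ≤ phi k0 k1 k2 0 α + phi k0 k1 k2 1 β + phi k0 k1 k2 2 γ := by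
  rw [phi_0, phi_1, phi_2]
  rcases h with ⟨b0, b1, b2, c0, c1, c2⟩ | ⟨b0, b1, b2, c0, c1, c2⟩ | ⟨b0, b1, b2, c0, c1, c2⟩ |
    ⟨b0, b1, b2, c0, c1, c2⟩ | ⟨b0, b1, b2, c0, c1, c2⟩ <;>
  rw [b1, b2, c0, c1, c2] <;> clear b0 b1 b2 c0 c1 c2 <;>
  generalize α 0 = x at * <;> generalize α 1 = y at * <;> generalize α 2 = z at * <;>
  omega

theorem phi_step (m k0 k1 k2 : ℤ) (hk : k0 + k1 + k2 = m + 1 ∨ k0 + k1 + k2 = m + 2)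
    (l e : Fin 3) (s : Site) (hs : s 0 + s 1 + s 2 = m) :
    phi k0 k1 k2 l s ≤ phi k0 k1 k2 l (s + step l e) := by
  fin_cases l <;> fin_cases e <;> simp only [Fin.zero_eta, Fin.mk_one, Fin.reduceFinMk] <;>
  first
  | rw [phi_0, phi_0]
  | rw [phi_1, phi_1]
  | rw [phi_2, phi_2]
  all_goals
    simp only [Pi.add_apply, step]
    norm_num
    generalize s 0 = x at *
    generalize s 1 = y at *
    generalize s 2 = z at *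
    omega

/-- For a tile meeting three sites there are thresholds for which its weight is `7`. -/
theorem phi_bad_weight (m : ℤ) (α β γ : Site) (hα : InD m α) (hβ : InD m β) (hγ : InD m γ)
    (h : Bad α β γ) : ∃ k0 k1 k2 : ℤ, (k0 + k1 + k2 = m + 1 ∨ k0 + k1 + k2 = m + 2) ∧
      (1 ≤ k0 ∧ k0 ≤ m) ∧ (1 ≤ k1 ∧ k1 ≤ m) ∧ (1 ≤ k2 ∧ k2 ≤ m) ∧
      phi k0 k1 k2 0 α + phi k0 k1 k2 1 β + phi k0 k1 k2 2 γ = 7 := by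
  have a0 := hα.1 0
  have a1 := hα.1 1
  have a2 := hα.1 2
  have as := hα.2
  have b0 := hβ.1 0
  have b1 := hβ.1 1
  have b2 := hβ.1 2
  have bs := hβ.2
  have c0 := hγ.1 0
  have c1 := hγ.1 1
  have c2 := hγ.1 2
  have cs := hγ.2
  refine ⟨α 0 + 1, α 1, γ 2 + 1, ?_⟩
  rw [phi_0, phi_1, phi_2]
  rcases h with ⟨d0, d1, d2, e0, e1, e2⟩ | ⟨d0, d1, d2, e0, e1, e2⟩ | ⟨d0, d1, d2, e0, e1, e2⟩ |
    ⟨d0, d1, d2, e0, e1, e2⟩ | ⟨d0, d1, d2, e0, e1, e2⟩ <;>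
  rw [e2] <;> rw [d1, d2, e0, e1] <;> rw [d0] at b0 <;> rw [d1] at b1 <;> rw [d2] at b2 <;>
  rw [e0] at c0 <;> rw [e1] at c1 <;> rw [e2] at c2 <;>
  clear d0 d1 d2 e0 e1 e2 bs cs hα hβ hγ <;>
  generalize α 0 = x at * <;> generalize α 1 = y at * <;> generalize α 2 = z at * <;>
  omega

theorem phi_corners (m k0 k1 k2 : ℤ) (h0 : 1 ≤ k0 ∧ k0 ≤ m) (h1 : 1 ≤ k1 ∧ k1 ≤ m)
    (h2 : 1 ≤ k2 ∧ k2 ≤ m) :
    phi k0 k1 k2 0 (corner m 0) + phi k0 k1 k2 1 (corner m 1) + phi k0 k1 k2 2 (corner m 2) = -6 := by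
  rw [phi_0, phi_1, phi_2]
  simp only [corner]
  norm_num
  omega

end Pool.Agent.Lib.MP_b072c6_co
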