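import Mathlib
import Pool.Agent.Lib.MP_b072c6_co.Defs
import Pool.Agent.Lib.MP_b072c6_co.Weights

/-!
From tilings of the benzel to exact covers of the (site, colour) region.
-/

namespace Pool.Agent.Lib.MP_b072c6_co

theorem fin3 (c : Fin 3) : c = 0 ∨ c = 1 ∨ c = 2 := by revert c; decide

/-- The cell of colour `c` at the site `s`. -/
def toCell (s : Site) (c : Fin 3) : ℤ × ℤ × ℤ :=
  (s 2 - s 0 + (if c = 2 then 1 else 0), s 0 - s 1 + (if c = 0 then 1 else 0),
    s 1 - s 2 + (if c = 1 then 1 else 0))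

theorem toCell_0 (s : Site) : toCell s 0 = (s 2 - s 0, s 0 - s 1 + 1, s 1 - s 2) := by simp [toCell]
theorem toCell_1 (s : Site) : toCell s 1 = (s 2 - s 0, s 0 - s 1, s 1 - s 2 + 1) := by simp [toCell]
theorem toCell_2 (s : Site) : toCell s 2 = (s 2 - s 0 + 1, s 0 - s 1, s 1 - s 2) := by simp [toCell]

theorem isCell_toCell (s : Site) (c : Fin 3) : IsCell (toCell s c) := by
  have hc := fin3 c
  unfold IsCell
  rcases hc with rfl | rfl | rfl
  · rw [toCell_0]; simp only []; ring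
  · rw [toCell_1]; simp only []; ring
  · rw [toCell_2]; simp only []; ring

theorem toCell_inj {m : ℤ} {s s' : Site} {c c' : Fin 3} (hs : s 0 + s 1 + s 2 = m)
    (hs' : s' 0 + s' 1 + s' 2 = m) (h : toCell s c = toCell s' c') : s = s' ∧ c = c' := by
  have hc := fin3 c
  have hc' := fin3 c'
  have key : ∀ {s s' : Site}, s 0 = s' 0 → s 1 = s' 1 → s 2 = s' 2 → s = s' :=
    fun h0 h1 h2 => site_ext 0 h0 h1 h2
  rcases hc with rfl | rfl | rfl <;> rcases hc' with rfl | rfl | rfl <;>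
  simp only [toCell_0, toCell_1, toCell_2, Prod.mk.injEq] at h <;> obtain ⟨h0, h1, h2⟩ := h
  · exact ⟨key (by omega) (by omega) (by omega), rfl⟩
  · exfalso; omega
  · exfalso; omega
  · exfalso; omega
  · exact ⟨key (by omega) (by omega) (by omega), rfl⟩
  · exfalso; omega
  · exfalso; omega
  · exfalso; omega
  · exact ⟨key (by omega) (by omega) (by omega), rfl⟩

theorem toCell_surj (m : ℤ) {x : ℤ × ℤ × ℤ} (hx : IsCell x) :
    ∃ s c, s 0 + s 1 + s 2 = m ∧ toCell s c = x := by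
  obtain ⟨i, j, k⟩ := x
  unfold IsCell at hx
  simp only [] at hx
  have h3 : (j - i + m + 1) % 3 = 2 ∨ (j - i + m + 1) % 3 = 1 ∨ (j - i + m + 1) % 3 = 0 := by omega
  rcases h3 with h3 | h3 | h3
  · refine ⟨![(j - i + m + 1) / 3, (k - j + m + 1) / 3, (i - k + m + 1) / 3], 0, ?_, ?_⟩
    · simp; omega
    · rw [toCell_0]; simp; omega
  · refine ⟨![(j - i + m + 1) / 3, (k - j + m + 1) / 3, (i - k + m + 1) / 3], 1, ?_, ?_⟩
    · simp; omega
    · rw [toCell_1]; simp; omega
  · refine ⟨![(j - i + m + 1) / 3, (k - j + m + 1) / 3, (i - k + m + 1) / 3], 2, ?_, ?_⟩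
    · simp; omega
    · rw [toCell_2]; simp; omega

theorem mem_benzel_iff {m : ℤ} {s : Site} {c : Fin 3} (hs : s 0 + s 1 + s 2 = m) :
    toCell s c ∈ benzel (m + 2) (2 * (m + 2) - 3) ↔ Reg m s c := by
  have hc := fin3 c
  have hall : (∀ r, 0 ≤ s r) ↔ 0 ≤ s 0 ∧ 0 ≤ s 1 ∧ 0 ≤ s 2 := by
    constructor
    · intro h; exact ⟨h 0, h 1, h 2⟩
    · rintro ⟨h0, h1, h2⟩ r
      have hr := fin3 r
      rcases hr with rfl | rfl | rfl <;> assumption
  unfold benzel Reg InD IsCell
  rw [hall]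
  rcases hc with rfl | rfl | rfl
  · rw [toCell_0]; simp only [Set.mem_ofPred_eq]; constructor
    · intro h; omega
    · intro h; omega
  · rw [toCell_1]; simp only [Set.mem_ofPred_eq]; constructor
    · intro h; omega
    · intro h; omega
  · rw [toCell_2]; simp only [Set.mem_ofPred_eq]; constructor
    · intro h; omega
    · intro h; omega

/-- The set of cells of a tile. -/
def shape (t : Tile) : Set (ℤ × ℤ × ℤ) := {x | ∃ s c, Cov t s c ∧ toCell s c = x}

theorem shape_R (s : Site) : shape (Tile.R s) = {toCell s 0, toCell s 1, toCell s 2} := by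
  ext x
  simp only [shape, Set.mem_ofPred_eq, Set.mem_insert_iff, Set.mem_singleton_iff, Cov]
  constructor
  · rintro ⟨s', c, rfl, rfl⟩
    have hc := fin3 c
    rcases hc with rfl | rfl | rfl <;> simp
  · rintro (rfl | rfl | rfl)
    exacts [⟨s, 0, rfl, rfl⟩, ⟨s, 1, rfl, rfl⟩, ⟨s, 2, rfl, rfl⟩]

theorem shape_D (l e : Fin 3) (s : Site) : shape (Tile.D l e s) =
    {toCell s (l + 1), toCell s (l + 2), toCell (s + step l e) l} := by
  ext x
  simp only [shape, Set.mem_ofPred_eq, Set.mem_insert_iff, Set.mem_singleton_iff, Cov]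
  constructor
  · rintro ⟨s', c, (⟨rfl, h⟩ | ⟨rfl, rfl⟩), rfl⟩
    · rcases three l c with rfl | rfl | rfl
      · exact (h rfl).elim
      · exact Or.inl rfl
      · exact Or.inr (Or.inl rfl)
    · exact Or.inr (Or.inr rfl)
  · rintro (rfl | rfl | rfl)
    · exact ⟨s, l + 1, Or.inl ⟨rfl, (l_ne1 l).symm⟩, rfl⟩
    · exact ⟨s, l + 2, Or.inl ⟨rfl, (l_ne2 l).symm⟩, rfl⟩
    · exact ⟨s + step l e, l, Or.inr ⟨rfl, rfl⟩, rfl⟩

theorem Adj_of (i j k i' j' k' : ℤ) (h : (i - i' = 1 ∧ j - j' = -1 ∧ k - k' = 0) ∨ (i - i' = -1 ∧ j - j' = 1 ∧ k - k' = 0) ∨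
   (i - i' = 1 ∧ j - j' = 0 ∧ k - k' = -1) ∨ (i - i' = -1 ∧ j - j' = 0 ∧ k - k' = 1) ∨
   (i - i' = 0 ∧ j - j' = 1 ∧ k - k' = -1) ∨ (i - i' = 0 ∧ j - j' = -1 ∧ k - k' = 1)) :
   Adj (i, j, k) (i', j', k') := by
  unfold Adj
  simp only []
  rcases h with ⟨a, b, c⟩ | ⟨a, b, c⟩ | ⟨a, b, c⟩ | ⟨a, b, c⟩ | ⟨a, b, c⟩ | ⟨a, b, c⟩ <;>
  rw [a, b, c] <;> norm_num

theorem Adj_dirs {i j k i' j' k' : ℤ} (hs : i + j + k = 1) (hs' : i' + j' + k' = 1)
    (h : Adj (i, j, k) (i', j', k')) : (i - i' = 1 ∧ j - j' = -1 ∧ k - k' = 0) ∨ (i - i' = -1 ∧ j - j' = 1 ∧ k - k' = 0) ∨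
   (i - i' = 1 ∧ j - j' = 0 ∧ k - k' = -1) ∨ (i - i' = -1 ∧ j - j' = 0 ∧ k - k' = 1) ∨
   (i - i' = 0 ∧ j - j' = 1 ∧ k - k' = -1) ∨ (i - i' = 0 ∧ j - j' = -1 ∧ k - k' = 1) := by
  unfold Adj at h
  simp only [] at h
  have hk : k - k' = -(i - i') - (j - j') := by omega
  rw [hk] at h ⊢
  generalize i - i' = a at *
  generalize j - j' = b at *
  clear hs hs' hk
  have ha : a = -1 ∨ a = 0 ∨ a = 1 := by
    rcases abs_cases a with ⟨x, _⟩ | ⟨x, _⟩ <;> rcases abs_cases b with ⟨y, _⟩ | ⟨y, _⟩ <;>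
    rcases abs_cases (-a - b) with ⟨z, _⟩ | ⟨z, _⟩ <;> rw [x, y, z] at h <;> omega
  have hb : b = -1 ∨ b = 0 ∨ b = 1 := by
    rcases abs_cases a with ⟨x, _⟩ | ⟨x, _⟩ <;> rcases abs_cases b with ⟨y, _⟩ | ⟨y, _⟩ <;>
    rcases abs_cases (-a - b) with ⟨z, _⟩ | ⟨z, _⟩ <;> rw [x, y, z] at h <;> omega
  rcases ha with rfl | rfl | rfl <;> rcases hb with rfl | rfl | rfl <;>
  first
  | (norm_num at h; done)
  | norm_num

theorem shape_isTile (t : Tile) : IsStone (shape t) ∨ IsBone (shape t) := by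
  cases t with
  | R s =>
    left
    refine ⟨_, _, _, isCell_toCell s 0, isCell_toCell s 1, isCell_toCell s 2, ?_, ?_, ?_, shape_R s⟩
    · rw [toCell_0, toCell_1]; apply Adj_of; omega
    · rw [toCell_0, toCell_2]; apply Adj_of; omega
    · rw [toCell_1, toCell_2]; apply Adj_of; omega
  | D l e s =>
    have he : e = 0 ∨ e = 1 ∨ e = 2 := by revert e; decide
    have hl : l = 0 ∨ l = 1 ∨ l = 2 := by revert l; decide
    rw [shape_D]
    rcases he with rfl | rfl | rfl
    · left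
      refine ⟨_, _, _, isCell_toCell s (l + 1), isCell_toCell s (l + 2), isCell_toCell (s + step l 0) l,
        ?_, ?_, ?_, rfl⟩
      · rcases hl with rfl | rfl | rfl
        · show Adj (toCell s 1) (toCell s 2)
          rw [toCell_1, toCell_2]; apply Adj_of; omega
        · show Adj (toCell s 2) (toCell s 0)
          rw [toCell_2, toCell_0]; apply Adj_of; omega
        · show Adj (toCell s 0) (toCell s 1)
          rw [toCell_0, toCell_1]; apply Adj_of; omega
      · rcases hl with rfl | rfl | rfl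
        · show Adj (toCell s 1) (toCell _ 0)
          rw [toCell_1, toCell_0]; apply Adj_of; simp [step]; omega
        · show Adj (toCell s 2) (toCell _ 1)
          rw [toCell_2, toCell_1]; apply Adj_of; simp [step]; omega
        · show Adj (toCell s 0) (toCell _ 2)
          rw [toCell_0, toCell_2]; apply Adj_of; simp [step]; omega
      · rcases hl with rfl | rfl | rfl
        · show Adj (toCell s 2) (toCell _ 0)
          rw [toCell_2, toCell_0]; apply Adj_of; simp [step]; omega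
        · show Adj (toCell s 0) (toCell _ 1)
          rw [toCell_0, toCell_1]; apply Adj_of; simp [step]; omega
        · show Adj (toCell s 1) (toCell _ 2)
          rw [toCell_1, toCell_2]; apply Adj_of; simp [step]; omega
    · right
      rcases hl with rfl | rfl | rfl
      · refine ⟨toCell s 2, (1, 0, -1), isCell_toCell s 2, by simp, ?_⟩
        rw [show (0 : Fin 3) + 1 = 1 from rfl, show (0 : Fin 3) + 2 = 2 from rfl]
        congr 1
        · rw [toCell_1, toCell_2]; simp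
        · congr 2
          rw [toCell_0, toCell_2]; simp [step]; omega
      · refine ⟨toCell s 0, (-1, 1, 0), isCell_toCell s 0, by simp, ?_⟩
        rw [show (1 : Fin 3) + 1 = 2 from rfl, show (1 : Fin 3) + 2 = 0 from rfl]
        congr 1
        · rw [toCell_2, toCell_0]; simp
        · congr 2
          rw [toCell_1, toCell_0]; simp [step]; omega
      · refine ⟨toCell s 1, (0, -1, 1), isCell_toCell s 1, by simp, ?_⟩
        rw [show (2 : Fin 3) + 1 = 0 from rfl, show (2 : Fin 3) + 2 = 1 from rfl]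
        congr 1
        · rw [toCell_1, toCell_0]; simp
        · congr 2
          rw [toCell_1, toCell_2]; simp [step]; omega
    · right
      rcases hl with rfl | rfl | rfl
      · refine ⟨toCell s 1, (-1, 0, 1), isCell_toCell s 1, by simp, ?_⟩
        rw [show (0 : Fin 3) + 1 = 1 from rfl, show (0 : Fin 3) + 2 = 2 from rfl, Set.insert_comm]
        congr 1
        · rw [toCell_1, toCell_2]; simp
        · congr 2
          rw [toCell_0, toCell_1]; simp [step]; omega
      · refine ⟨toCell s 2, (1, -1, 0), isCell_toCell s 2, by simp, ?_⟩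
        rw [show (1 : Fin 3) + 1 = 2 from rfl, show (1 : Fin 3) + 2 = 0 from rfl, Set.insert_comm]
        congr 1
        · rw [toCell_2, toCell_0]; simp
        · congr 2
          rw [toCell_1, toCell_2]; simp [step]; omega
      · refine ⟨toCell s 0, (0, 1, -1), isCell_toCell s 0, by simp, ?_⟩
        rw [show (2 : Fin 3) + 1 = 0 from rfl, show (2 : Fin 3) + 2 = 1 from rfl, Set.insert_comm]
        congr 1
        · rw [toCell_1, toCell_0]; simp
        · congr 2
          rw [toCell_0, toCell_2]; simp [step]; omega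

end Pool.Agent.Lib.MP_b072c6_co
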