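import Mathlib
import Pool.Agent.Lib.MP_b072c6_co.Tiles

/-!
Classification of stones and bones in (site, colour) coordinates.
-/

set_option linter.unreachableTactic false
set_option linter.unusedTactic false

namespace Pool.Agent.Lib.MP_b072c6_co

theorem Adj.symm {x y : ℤ × ℤ × ℤ} (h : Adj x y) : Adj y x := by
  unfold Adj at *
  rw [abs_sub_comm y.1, abs_sub_comm y.2.1, abs_sub_comm y.2.2]
  exact h

/-- Three cells form a stone or a bone (in any order). -/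
def Tri (x y z : ℤ × ℤ × ℤ) : Prop :=
  (Adj x y ∧ Adj x z ∧ Adj y z) ∨ (Adj x y ∧ Adj y z ∧ x + z = y + y) ∨
  (Adj x z ∧ Adj y z ∧ x + y = z + z) ∨ (Adj x y ∧ Adj x z ∧ y + z = x + x)

theorem Tri.swap12 {x y z : ℤ × ℤ × ℤ} (h : Tri x y z) : Tri y x z := by
  rcases h with ⟨a, b, c⟩ | ⟨a, b, c⟩ | ⟨a, b, c⟩ | ⟨a, b, c⟩
  · exact Or.inl ⟨a.symm, c, b⟩
  · exact Or.inr (Or.inr (Or.inr ⟨a.symm, b, c⟩))
  · exact Or.inr (Or.inr (Or.inl ⟨b, a, by rw [add_comm]; exact c⟩))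
  · exact Or.inr (Or.inl ⟨a.symm, b, c⟩)

theorem Tri.swap23 {x y z : ℤ × ℤ × ℤ} (h : Tri x y z) : Tri x z y := by
  rcases h with ⟨a, b, c⟩ | ⟨a, b, c⟩ | ⟨a, b, c⟩ | ⟨a, b, c⟩
  · exact Or.inl ⟨b, a, c.symm⟩
  · exact Or.inr (Or.inr (Or.inl ⟨a, b.symm, c⟩))
  · exact Or.inr (Or.inl ⟨a, b.symm, c⟩)
  · exact Or.inr (Or.inr (Or.inr ⟨b, a, by rw [add_comm]; exact c⟩))

theorem tri_of_stone {t : Set (ℤ × ℤ × ℤ)} (h : IsStone t) :
    ∃ x y z, IsCell x ∧ IsCell y ∧ IsCell z ∧ Tri x y z ∧ t = {x, y, z} := by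
  obtain ⟨x, y, z, hx, hy, hz, h1, h2, h3, rfl⟩ := h
  exact ⟨x, y, z, hx, hy, hz, Or.inl ⟨h1, h2, h3⟩, rfl⟩

theorem tri_of_bone {t : Set (ℤ × ℤ × ℤ)} (h : IsBone t) :
    ∃ x y z, IsCell x ∧ IsCell y ∧ IsCell z ∧ Tri x y z ∧ t = {x, y, z} := by
  obtain ⟨⟨i, j, k⟩, d, hc, hd, rfl⟩ := h
  refine ⟨_, _, _, ?_, hc, ?_, Or.inr (Or.inl ⟨?_, ?_, ?_⟩), rfl⟩
  · unfold IsCell at *
    simp only [Set.mem_insert_iff, Set.mem_singleton_iff] at hd
    rcases hd with rfl | rfl | rfl | rfl | rfl | rfl <;> simp at hc ⊢ <;> omega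
  · unfold IsCell at *
    simp only [Set.mem_insert_iff, Set.mem_singleton_iff] at hd
    rcases hd with rfl | rfl | rfl | rfl | rfl | rfl <;> simp at hc ⊢ <;> omega
  · simp only [Set.mem_insert_iff, Set.mem_singleton_iff] at hd
    rcases hd with rfl | rfl | rfl | rfl | rfl | rfl <;> simp [Adj]
  · simp only [Set.mem_insert_iff, Set.mem_singleton_iff] at hd
    rcases hd with rfl | rfl | rfl | rfl | rfl | rfl <;> simp [Adj]
  · abel

section adj

variable {m : ℤ} {α β : Site} (hα : α 0 + α 1 + α 2 = m) (hβ : β 0 + β 1 + β 2 = m)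

include hα hβ

theorem adj_01 (h : Adj (toCell α 0) (toCell β 1)) : (β 0 = α 0 ∧ β 1 = α 1 ∧ β 2 = α 2) ∨
    (β 0 = α 0 ∧ β 1 = α 1 - 1 ∧ β 2 = α 2 + 1) ∨ (β 0 = α 0 + 1 ∧ β 1 = α 1 - 1 ∧ β 2 = α 2) := by
  rw [toCell_0, toCell_1] at h
  rcases Adj_dirs (by ring) (by ring) h with ⟨a, b, c⟩ | ⟨a, b, c⟩ | ⟨a, b, c⟩ | ⟨a, b, c⟩ | ⟨a, b, c⟩ |
    ⟨a, b, c⟩ <;> first | (exfalso; omega) | (left; omega) | (right; left; omega) | (right; right; omega)

theorem adj_12 (h : Adj (toCell α 1) (toCell β 2)) : (β 0 = α 0 ∧ β 1 = α 1 ∧ β 2 = α 2) ∨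
    (β 0 = α 0 + 1 ∧ β 1 = α 1 ∧ β 2 = α 2 - 1) ∨ (β 0 = α 0 ∧ β 1 = α 1 + 1 ∧ β 2 = α 2 - 1) := by
  rw [toCell_1, toCell_2] at h
  rcases Adj_dirs (by ring) (by ring) h with ⟨a, b, c⟩ | ⟨a, b, c⟩ | ⟨a, b, c⟩ | ⟨a, b, c⟩ | ⟨a, b, c⟩ |
    ⟨a, b, c⟩ <;> first | (exfalso; omega) | (left; omega) | (right; left; omega) | (right; right; omega)

theorem adj_20 (h : Adj (toCell α 2) (toCell β 0)) : (β 0 = α 0 ∧ β 1 = α 1 ∧ β 2 = α 2) ∨
    (β 0 = α 0 - 1 ∧ β 1 = α 1 + 1 ∧ β 2 = α 2) ∨ (β 0 = α 0 - 1 ∧ β 1 = α 1 ∧ β 2 = α 2 + 1) := by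
  rw [toCell_2, toCell_0] at h
  rcases Adj_dirs (by ring) (by ring) h with ⟨a, b, c⟩ | ⟨a, b, c⟩ | ⟨a, b, c⟩ | ⟨a, b, c⟩ | ⟨a, b, c⟩ |
    ⟨a, b, c⟩ <;> first | (exfalso; omega) | (left; omega) | (right; left; omega) | (right; right; omega)

theorem adj_same {c : Fin 3} (h : Adj (toCell α c) (toCell β c)) : False := by
  rcases fin3 c with rfl | rfl | rfl
  · rw [toCell_0, toCell_0] at h
    rcases Adj_dirs (by ring) (by ring) h with ⟨a, b, c⟩ | ⟨a, b, c⟩ | ⟨a, b, c⟩ | ⟨a, b, c⟩ | ⟨a, b, c⟩ |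
      ⟨a, b, c⟩ <;> omega
  · rw [toCell_1, toCell_1] at h
    rcases Adj_dirs (by ring) (by ring) h with ⟨a, b, c⟩ | ⟨a, b, c⟩ | ⟨a, b, c⟩ | ⟨a, b, c⟩ | ⟨a, b, c⟩ |
      ⟨a, b, c⟩ <;> omega
  · rw [toCell_2, toCell_2] at h
    rcases Adj_dirs (by ring) (by ring) h with ⟨a, b, c⟩ | ⟨a, b, c⟩ | ⟨a, b, c⟩ | ⟨a, b, c⟩ | ⟨a, b, c⟩ |
      ⟨a, b, c⟩ <;> omega

theorem tri_same {γ : Site} (hγ : γ 0 + γ 1 + γ 2 = m) {c c' : Fin 3}
    (h : Tri (toCell α c) (toCell β c) (toCell γ c')) : False := by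
  rcases h with ⟨a, _, _⟩ | ⟨a, _, _⟩ | ⟨a, b, h⟩ | ⟨a, _, _⟩
  · exact adj_same hα hβ a
  · exact adj_same hα hβ a
  · have hne : c ≠ c' := by
      rintro rfl
      exact adj_same hα hγ a
    rcases fin3 c with rfl | rfl | rfl <;> rcases fin3 c' with rfl | rfl | rfl <;>
    first
    | exact hne rfl
    | (simp only [toCell_0, toCell_1, toCell_2, Prod.mk_add_mk, Prod.mk.injEq] at h; omega)
  · exact adj_same hα hβ a

end adj

/-- The fifteen relative positions of the three cells of a tile. -/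
def F15 (α β γ : Site) : Prop :=
  (β 0 = α 0 ∧ β 1 = α 1 ∧ β 2 = α 2 ∧ γ 0 = α 0 ∧ γ 1 = α 1 ∧ γ 2 = α 2) ∨
  (γ 0 = β 0 ∧ γ 1 = β 1 ∧ γ 2 = β 2 ∧ ∃ e, α 0 = β 0 + step 0 e 0 ∧ α 1 = β 1 + step 0 e 1 ∧ α 2 = β 2 + step 0 e 2) ∨
  (γ 0 = α 0 ∧ γ 1 = α 1 ∧ γ 2 = α 2 ∧ ∃ e, β 0 = α 0 + step 1 e 0 ∧ β 1 = α 1 + step 1 e 1 ∧ β 2 = α 2 + step 1 e 2) ∨
  (β 0 = α 0 ∧ β 1 = α 1 ∧ β 2 = α 2 ∧ ∃ e, γ 0 = α 0 + step 2 e 0 ∧ γ 1 = α 1 + step 2 e 1 ∧ γ 2 = α 2 + step 2 e 2) ∨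
  Bad α β γ

theorem fifteen {m : ℤ} {α β γ : Site} (hα : α 0 + α 1 + α 2 = m) (hβ : β 0 + β 1 + β 2 = m)
    (hγ : γ 0 + γ 1 + γ 2 = m) (h : Tri (toCell α 0) (toCell β 1) (toCell γ 2)) : F15 α β γ := by
  have s00 : step 0 0 0 = -1 := by decide
  have s01 : step 0 0 1 = 1 := by decide
  have s02 : step 0 0 2 = 0 := by decide
  have s10 : step 0 1 0 = -1 := by decide
  have s11 : step 0 1 1 = 0 := by decide
  have s12 : step 0 1 2 = 1 := by decide
  have s20 : step 0 2 0 = 0 := by decide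
  have s21 : step 0 2 1 = 1 := by decide
  have s22 : step 0 2 2 = -1 := by decide
  have t00 : step 1 0 0 = 0 := by decide
  have t01 : step 1 0 1 = -1 := by decide
  have t02 : step 1 0 2 = 1 := by decide
  have t10 : step 1 1 0 = 1 := by decide
  have t11 : step 1 1 1 = -1 := by decide
  have t12 : step 1 1 2 = 0 := by decide
  have t20 : step 1 2 0 = -1 := by decide
  have t21 : step 1 2 1 = 0 := by decide
  have t22 : step 1 2 2 = 1 := by decide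
  have u00 : step 2 0 0 = 1 := by decide
  have u01 : step 2 0 1 = 0 := by decide
  have u02 : step 2 0 2 = -1 := by decide
  have u10 : step 2 1 0 = 0 := by decide
  have u11 : step 2 1 1 = 1 := by decide
  have u12 : step 2 1 2 = -1 := by decide
  have u20 : step 2 2 0 = 1 := by decide
  have u21 : step 2 2 1 = -1 := by decide
  have u22 : step 2 2 2 = 0 := by decide
  have fin : ∀ (p : (β 0 = α 0 ∧ β 1 = α 1 ∧ β 2 = α 2 ∧ γ 0 = α 0 ∧ γ 1 = α 1 ∧ γ 2 = α 2) ∨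
     (γ 0 = β 0 ∧ γ 1 = β 1 ∧ γ 2 = β 2 ∧ ((α 0 = β 0 - 1 ∧ α 1 = β 1 + 1 ∧ α 2 = β 2) ∨
       (α 0 = β 0 - 1 ∧ α 1 = β 1 ∧ α 2 = β 2 + 1) ∨ (α 0 = β 0 ∧ α 1 = β 1 + 1 ∧ α 2 = β 2 - 1))) ∨
     (γ 0 = α 0 ∧ γ 1 = α 1 ∧ γ 2 = α 2 ∧ ((β 0 = α 0 ∧ β 1 = α 1 - 1 ∧ β 2 = α 2 + 1) ∨
       (β 0 = α 0 + 1 ∧ β 1 = α 1 - 1 ∧ β 2 = α 2) ∨ (β 0 = α 0 - 1 ∧ β 1 = α 1 ∧ β 2 = α 2 + 1))) ∨
     (β 0 = α 0 ∧ β 1 = α 1 ∧ β 2 = α 2 ∧ ((γ 0 = α 0 + 1 ∧ γ 1 = α 1 ∧ γ 2 = α 2 - 1) ∨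
       (γ 0 = α 0 ∧ γ 1 = α 1 + 1 ∧ γ 2 = α 2 - 1) ∨ (γ 0 = α 0 + 1 ∧ γ 1 = α 1 - 1 ∧ γ 2 = α 2))) ∨
     Bad α β γ), F15 α β γ := by
    intro p
    rcases p with p | ⟨a, b, c, p⟩ | ⟨a, b, c, p⟩ | ⟨a, b, c, p⟩ | p
    · exact Or.inl p
    · refine Or.inr (Or.inl ⟨a, b, c, ?_⟩)
      rcases p with p | p | p
      · refine ⟨0, ?_⟩; rw [s00, s01, s02]; omega
      · refine ⟨1, ?_⟩; rw [s10, s11, s12]; omega
      · refine ⟨2, ?_⟩; rw [s20, s21, s22]; omega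
    · refine Or.inr (Or.inr (Or.inl ⟨a, b, c, ?_⟩))
      rcases p with p | p | p
      · refine ⟨0, ?_⟩; rw [t00, t01, t02]; omega
      · refine ⟨1, ?_⟩; rw [t10, t11, t12]; omega
      · refine ⟨2, ?_⟩; rw [t20, t21, t22]; omega
    · refine Or.inr (Or.inr (Or.inr (Or.inl ⟨a, b, c, ?_⟩)))
      rcases p with p | p | p
      · refine ⟨0, ?_⟩; rw [u00, u01, u02]; omega
      · refine ⟨1, ?_⟩; rw [u10, u11, u12]; omega
      · refine ⟨2, ?_⟩; rw [u20, u21, u22]; omega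
    · exact Or.inr (Or.inr (Or.inr (Or.inr p)))
  apply fin
  unfold Bad
  clear fin s00 s01 s02 s10 s11 s12 s20 s21 s22 t00 t01 t02 t10 t11 t12 t20 t21 t22 u00 u01 u02 u10 u11 u12 u20 u21 u22
  rcases h with ⟨a, b, c⟩ | ⟨a, b, c⟩ | ⟨a, b, c⟩ | ⟨a, b, c⟩
  · rcases adj_01 hα hβ a with ⟨a0, a1, a2⟩ | ⟨a0, a1, a2⟩ | ⟨a0, a1, a2⟩ <;>
    rcases adj_12 hβ hγ c with ⟨c0, c1, c2⟩ | ⟨c0, c1, c2⟩ | ⟨c0, c1, c2⟩ <;>
    rcases adj_20 hγ hα b.symm with ⟨b0, b1, b2⟩ | ⟨b0, b1, b2⟩ | ⟨b0, b1, b2⟩ <;>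
    first
    | (exfalso; omega)
    | (left; omega)
    | (right; left; refine ⟨by omega, by omega, by omega, ?_⟩; first | (left; omega) | (right; left; omega) | (right; right; omega))
    | (right; right; left; refine ⟨by omega, by omega, by omega, ?_⟩; first | (left; omega) | (right; left; omega) | (right; right; omega))
    | (right; right; right; left; refine ⟨by omega, by omega, by omega, ?_⟩; first | (left; omega) | (right; left; omega) | (right; right; omega))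
    | (right; right; right; right; first | (left; omega) | (right; left; omega) | (right; right; left; omega) | (right; right; right; left; omega) | (right; right; right; right; omega))
  · rw [toCell_0, toCell_1, toCell_2, Prod.mk_add_mk, Prod.mk_add_mk, Prod.mk_add_mk, Prod.mk_add_mk, Prod.mk.injEq, Prod.mk.injEq] at c
    obtain ⟨d0, d1, d2⟩ := c
    rcases adj_01 hα hβ a with ⟨a0, a1, a2⟩ | ⟨a0, a1, a2⟩ | ⟨a0, a1, a2⟩ <;>
    first
    | (exfalso; omega)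
    | (left; omega)
    | (right; left; refine ⟨by omega, by omega, by omega, ?_⟩; first | (left; omega) | (right; left; omega) | (right; right; omega))
    | (right; right; left; refine ⟨by omega, by omega, by omega, ?_⟩; first | (left; omega) | (right; left; omega) | (right; right; omega))
    | (right; right; right; left; refine ⟨by omega, by omega, by omega, ?_⟩; first | (left; omega) | (right; left; omega) | (right; right; omega))
    | (right; right; right; right; first | (left; omega) | (right; left; omega) | (right; right; left; omega) | (right; right; right; left; omega) | (right; right; right; right; omega))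
  · rw [toCell_0, toCell_1, toCell_2, Prod.mk_add_mk, Prod.mk_add_mk, Prod.mk_add_mk, Prod.mk_add_mk, Prod.mk.injEq, Prod.mk.injEq] at c
    obtain ⟨d0, d1, d2⟩ := c
    rcases adj_20 hγ hα a.symm with ⟨a0, a1, a2⟩ | ⟨a0, a1, a2⟩ | ⟨a0, a1, a2⟩ <;>
    first
    | (exfalso; omega)
    | (left; omega)
    | (right; left; refine ⟨by omega, by omega, by omega, ?_⟩; first | (left; omega) | (right; left; omega) | (right; right; omega))
    | (right; right; left; refine ⟨by omega, by omega, by omega, ?_⟩; first | (left; omega) | (right; left; omega) | (right; right; omega))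
    | (right; right; right; left; refine ⟨by omega, by omega, by omega, ?_⟩; first | (left; omega) | (right; left; omega) | (right; right; omega))
    | (right; right; right; right; first | (left; omega) | (right; left; omega) | (right; right; left; omega) | (right; right; right; left; omega) | (right; right; right; right; omega))
  · rw [toCell_0, toCell_1, toCell_2, Prod.mk_add_mk, Prod.mk_add_mk, Prod.mk_add_mk, Prod.mk_add_mk, Prod.mk.injEq, Prod.mk.injEq] at c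
    obtain ⟨d0, d1, d2⟩ := c
    rcases adj_01 hα hβ a with ⟨a0, a1, a2⟩ | ⟨a0, a1, a2⟩ | ⟨a0, a1, a2⟩ <;>
    first
    | (exfalso; omega)
    | (left; omega)
    | (right; left; refine ⟨by omega, by omega, by omega, ?_⟩; first | (left; omega) | (right; left; omega) | (right; right; omega))
    | (right; right; left; refine ⟨by omega, by omega, by omega, ?_⟩; first | (left; omega) | (right; left; omega) | (right; right; omega))
    | (right; right; right; left; refine ⟨by omega, by omega, by omega, ?_⟩; first | (left; omega) | (right; left; omega) | (right; right; omega))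
    | (right; right; right; right; first | (left; omega) | (right; left; omega) | (right; right; left; omega) | (right; right; right; left; omega) | (right; right; right; right; omega))

/-- A tile is the shape of an `R`- or `D`-tile, or a bad tile. -/
def Cls (m : ℤ) (t : Set (ℤ × ℤ × ℤ)) : Prop :=
  (∃ T : Tile, (∀ s c, Cov T s c → s 0 + s 1 + s 2 = m) ∧ t = shape T) ∨
  ∃ α β γ : Site, α 0 + α 1 + α 2 = m ∧ β 0 + β 1 + β 2 = m ∧ γ 0 + γ 1 + γ 2 = m ∧ Bad α β γ ∧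
    t = {toCell α 0, toCell β 1, toCell γ 2}

theorem cls_main {m : ℤ} {α β γ : Site} (hα : α 0 + α 1 + α 2 = m) (hβ : β 0 + β 1 + β 2 = m)
    (hγ : γ 0 + γ 1 + γ 2 = m) (h : Tri (toCell α 0) (toCell β 1) (toCell γ 2)) :
    Cls m {toCell α 0, toCell β 1, toCell γ 2} := by
  have key : ∀ {s s' : Site}, s 0 = s' 0 → s 1 = s' 1 → s 2 = s' 2 → s = s' :=
    fun h0 h1 h2 => site_ext 0 h0 h1 h2
  rcases fifteen hα hβ hγ h with ⟨a0, a1, a2, b0, b1, b2⟩ | ⟨a0, a1, a2, e, b0, b1, b2⟩ |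
    ⟨a0, a1, a2, e, b0, b1, b2⟩ | ⟨a0, a1, a2, e, b0, b1, b2⟩ | hbad
  · obtain rfl : β = α := key a0 a1 a2
    obtain rfl : γ = β := key b0 b1 b2
    refine Or.inl ⟨Tile.R γ, ?_, (shape_R γ).symm⟩
    intro s c hc
    simp only [Cov] at hc
    subst hc
    exact hα
  · obtain rfl : γ = β := key a0 a1 a2
    obtain rfl : α = γ + step 0 e := key b0 b1 b2
    refine Or.inl ⟨Tile.D 0 e γ, ?_, ?_⟩
    · rintro s c (⟨rfl, _⟩ | ⟨rfl, _⟩)
      · exact hβ
      · exact hα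
    · rw [shape_D, show (0 : Fin 3) + 1 = 1 from rfl, show (0 : Fin 3) + 2 = 2 from rfl]
      ext x
      simp only [Set.mem_insert_iff, Set.mem_singleton_iff]
      tauto
  · obtain rfl : γ = α := key a0 a1 a2
    obtain rfl : β = γ + step 1 e := key b0 b1 b2
    refine Or.inl ⟨Tile.D 1 e γ, ?_, ?_⟩
    · rintro s c (⟨rfl, _⟩ | ⟨rfl, _⟩)
      · exact hα
      · exact hβ
    · rw [shape_D, show (1 : Fin 3) + 1 = 2 from rfl, show (1 : Fin 3) + 2 = 0 from rfl]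
      ext x
      simp only [Set.mem_insert_iff, Set.mem_singleton_iff]
      tauto
  · obtain rfl : β = α := key a0 a1 a2
    obtain rfl : γ = β + step 2 e := key b0 b1 b2
    refine Or.inl ⟨Tile.D 2 e β, ?_, ?_⟩
    · rintro s c (⟨rfl, _⟩ | ⟨rfl, _⟩)
      · exact hα
      · exact hγ
    · rw [shape_D, show (2 : Fin 3) + 1 = 0 from rfl, show (2 : Fin 3) + 2 = 1 from rfl]
  · exact Or.inr ⟨α, β, γ, hα, hβ, hγ, hbad, rfl⟩

theorem classify (m : ℤ) {t : Set (ℤ × ℤ × ℤ)} (ht : IsStone t ∨ IsBone t) : Cls m t := by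
  obtain ⟨x, y, z, hx, hy, hz, h, rfl⟩ : ∃ x y z, IsCell x ∧ IsCell y ∧ IsCell z ∧ Tri x y z ∧ t = {x, y, z} := by
    rcases ht with ht | ht
    · exact tri_of_stone ht
    · exact tri_of_bone ht
  obtain ⟨a, c, ha, rfl⟩ := toCell_surj m hx
  obtain ⟨b, c', hb, rfl⟩ := toCell_surj m hy
  obtain ⟨d, c'', hd, rfl⟩ := toCell_surj m hz
  have h12 : c ≠ c' := by
    rintro rfl
    exact tri_same ha hb hd h
  have h13 : c ≠ c'' := by
    rintro rfl
    exact tri_same ha hd hb h.swap23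
  have h23 : c' ≠ c'' := by
    rintro rfl
    exact tri_same hb hd ha h.swap12.swap23
  have hset : ∀ x y z : ℤ × ℤ × ℤ, ({x, y, z} : Set (ℤ × ℤ × ℤ)) = {y, x, z} := fun x y z => Set.insert_comm _ _ _
  have hset' : ∀ x y z : ℤ × ℤ × ℤ, ({x, y, z} : Set (ℤ × ℤ × ℤ)) = {x, z, y} := fun x y z => by
    rw [Set.pair_comm]
  rcases fin3 c with rfl | rfl | rfl <;> rcases fin3 c' with rfl | rfl | rfl <;>
  rcases fin3 c'' with rfl | rfl | rfl <;>
  first
  | exact (h12 rfl).elim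
  | exact (h13 rfl).elim
  | exact (h23 rfl).elim
  | exact cls_main ha hb hd h
  | (rw [hset]; exact cls_main hb ha hd h.swap12)
  | (rw [hset']; exact cls_main ha hd hb h.swap23)
  | (rw [hset, hset']; exact cls_main hb hd ha h.swap12.swap23)
  | (rw [hset', hset]; exact cls_main hd ha hb h.swap23.swap12)
  | (rw [hset, hset', hset]; exact cls_main hd hb ha h.swap12.swap23.swap12)

end Pool.Agent.Lib.MP_b072c6_co
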