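import Mathlib
import Pool.Agent.Lib.MP_b072c6_co.Adic
import Pool.Agent.Lib.MP_b072c6_co.Structure

/-!
Counting compatible triples of words.
-/

namespace Pool.Agent.Lib.MP_b072c6_co

/-- The words ending at `(p, q)`. -/
def words : ℕ → ℕ → Finset (List (Fin 3))
  | 0, 0 => {[]}
  | p + 1, 0 => (words p 0).image (List.cons 1)
  | 0, q + 1 => (words 0 q).image (List.cons 0) ∪ (words 1 q).image (List.cons 2)
  | p + 1, q + 1 => (words p (q + 1)).image (List.cons 1) ∪ (words (p + 1) q).image (List.cons 0) ∪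
      (words (p + 2) q).image (List.cons 2)
termination_by p q => (q, p)

theorem nil_mem_words (p q : ℕ) : [] ∈ words p q ↔ p = 0 ∧ q = 0 := by
  cases p <;> cases q <;> simp [words]

theorem cons0_mem_words (p q : ℕ) (v : List (Fin 3)) :
    0 :: v ∈ words p q ↔ ∃ q', q = q' + 1 ∧ v ∈ words p q' := by
  cases p <;> cases q <;> simp [words]

theorem cons1_mem_words (p q : ℕ) (v : List (Fin 3)) :
    1 :: v ∈ words p q ↔ ∃ p', p = p' + 1 ∧ v ∈ words p' q := by
  cases p <;> cases q <;> simp [words]

theorem cons2_mem_words (p q : ℕ) (v : List (Fin 3)) :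
    2 :: v ∈ words p q ↔ ∃ q', q = q' + 1 ∧ v ∈ words (p + 1) q' := by
  cases p <;> cases q <;> simp [words]

theorem Q_nonneg (w : List (Fin 3)) : 0 ≤ Q w := by
  induction w with
  | nil => simp [Q]
  | cons e w ih => simp only [Q]; split_ifs <;> omega

theorem valid_cons (e : Fin 3) (w : List (Fin 3)) : Valid (e :: w) ↔ Valid w ∧ 0 ≤ P (e :: w) := by
  constructor
  · intro h
    exact ⟨fun u hu => h u (hu.trans (List.suffix_cons e w)), h _ List.suffix_rfl⟩
  · rintro ⟨h, h'⟩ u hu
    rcases List.suffix_cons_iff.1 hu with rfl | h1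
    · exact h'
    · exact h u h1

theorem mem_words (w : List (Fin 3)) : ∀ p q : ℕ, w ∈ words p q ↔ Valid w ∧ P w = p ∧ Q w = q := by
  induction w with
  | nil =>
    intro p q
    rw [nil_mem_words]
    constructor
    · rintro ⟨rfl, rfl⟩
      refine ⟨fun u hu => ?_, by simp [P], by simp [Q]⟩
      rw [List.suffix_nil.1 hu]; simp [P]
    · rintro ⟨_, h1, h2⟩
      simp only [P, Q] at h1 h2
      constructor <;> omega
  | cons e v ih =>
    intro p q
    have hQ := Q_nonneg v
    rw [valid_cons]
    have he : e = 0 ∨ e = 1 ∨ e = 2 := by revert e; decide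
    rcases he with rfl | rfl | rfl
    · rw [cons0_mem_words]
      simp only [P, Q]
      norm_num
      constructor
      · rintro ⟨q', rfl, hv⟩
        obtain ⟨a, b, c⟩ := (ih _ _).1 hv
        refine ⟨⟨a, by omega⟩, b, by push_cast; omega⟩
      · rintro ⟨⟨a, _⟩, b, c⟩
        refine ⟨q - 1, by omega, (ih _ _).2 ⟨a, b, by omega⟩⟩
    · rw [cons1_mem_words]
      simp only [P, Q]
      norm_num
      constructor
      · rintro ⟨p', rfl, hv⟩
        obtain ⟨a, b, c⟩ := (ih _ _).1 hv
        refine ⟨⟨a, by omega⟩, by push_cast; omega, c⟩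
      · rintro ⟨⟨a, _⟩, b, c⟩
        have := a v List.suffix_rfl
        refine ⟨p - 1, by omega, (ih _ _).2 ⟨a, by omega, c⟩⟩
    · rw [cons2_mem_words]
      simp only [P, Q]
      constructor
      · rintro ⟨q', rfl, hv⟩
        obtain ⟨a, b, c⟩ := (ih _ _).1 hv
        push_cast at b
        refine ⟨⟨a, by omega⟩, by omega, by push_cast; omega⟩
      · rintro ⟨⟨a, _⟩, b, c⟩
        refine ⟨q - 1, by omega, (ih _ _).2 ⟨a, by push_cast; omega, by omega⟩⟩

theorem card_words (p q : ℕ) : (words p q).card = W p q := by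
  have inj : ∀ e : Fin 3, Function.Injective (List.cons e) := fun e => List.cons_injective
  have dis : ∀ (A B : Finset (List (Fin 3))) (e e' : Fin 3), e ≠ e' →
      Disjoint (A.image (List.cons e)) (B.image (List.cons e')) := by
    intro A B e e' h
    rw [Finset.disjoint_left]
    intro x hx hx'
    rw [Finset.mem_image] at hx hx'
    obtain ⟨a, _, rfl⟩ := hx
    obtain ⟨b, _, hb⟩ := hx'
    injection hb with h1
    exact h h1.symm
  fun_induction words p q with
  | case1 => simp [W]
  | case2 p ih => rw [Finset.card_image_of_injective _ (inj 1), ih, W]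
  | case3 q ih1 ih2 =>
    rw [Finset.card_union_of_disjoint (dis _ _ _ _ (by decide)), Finset.card_image_of_injective _ (inj 0),
      Finset.card_image_of_injective _ (inj 2), ih1, ih2, W]
  | case4 p q ih1 ih2 ih3 =>
    rw [Finset.card_union_of_disjoint, Finset.card_union_of_disjoint (dis _ _ _ _ (by decide)),
      Finset.card_image_of_injective _ (inj 1), Finset.card_image_of_injective _ (inj 0),
      Finset.card_image_of_injective _ (inj 2), ih1, ih2, ih3, W]
    rw [Finset.disjoint_union_left]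
    exact ⟨dis _ _ _ _ (by decide), dis _ _ _ _ (by decide)⟩

theorem card_head1_zero (q : ℕ) : ((words 0 q).filter (fun w => w.head? = some 1)).card = 0 := by
  rw [Finset.card_eq_zero, Finset.filter_eq_empty_iff]
  intro w hw h
  rw [List.head?_eq_some_iff] at h
  obtain ⟨v, rfl⟩ := h
  rw [cons1_mem_words] at hw
  obtain ⟨p', h, _⟩ := hw
  omega

theorem card_head2_zero (p : ℕ) : ((words p 0).filter (fun w => w.head? = some 2)).card = 0 := by
  rw [Finset.card_eq_zero, Finset.filter_eq_empty_iff]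
  intro w hw h
  rw [List.head?_eq_some_iff] at h
  obtain ⟨v, rfl⟩ := h
  rw [cons2_mem_words] at hw
  obtain ⟨p', h, _⟩ := hw
  omega

theorem card_head1 (p q : ℕ) : ((words (p + 1) q).filter (fun w => w.head? = some 1)).card = W p q := by
  rw [← card_words, ← Finset.card_image_of_injective (words p q) (List.cons_injective (a := (1 : Fin 3)))]
  congr 1
  ext w
  rw [Finset.mem_filter, Finset.mem_image]
  constructor
  · rintro ⟨hw, h⟩
    rw [List.head?_eq_some_iff] at h
    obtain ⟨v, rfl⟩ := h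
    rw [cons1_mem_words] at hw
    obtain ⟨p', h, hv⟩ := hw
    have : p = p' := by omega
    subst this
    exact ⟨v, hv, rfl⟩
  · rintro ⟨v, hv, rfl⟩
    exact ⟨(cons1_mem_words _ _ _).2 ⟨p, rfl, hv⟩, rfl⟩

theorem card_head2 (p q : ℕ) :
    ((words p (q + 1)).filter (fun w => w.head? = some 2)).card = W (p + 1) q := by
  rw [← card_words, ← Finset.card_image_of_injective (words (p + 1) q) (List.cons_injective (a := (2 : Fin 3)))]
  congr 1
  ext w
  rw [Finset.mem_filter, Finset.mem_image]
  constructor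
  · rintro ⟨hw, h⟩
    rw [List.head?_eq_some_iff] at h
    obtain ⟨v, rfl⟩ := h
    rw [cons2_mem_words] at hw
    obtain ⟨p', h, hv⟩ := hw
    have : q = p' := by omega
    subst this
    exact ⟨v, hv, rfl⟩
  · rintro ⟨v, hv, rfl⟩
    exact ⟨(cons2_mem_words _ _ _).2 ⟨q, rfl, hv⟩, rfl⟩

/-- The triples of words ending at the site `(a, b, c)`. -/
def Y (a b c : ℕ) : Finset (List (Fin 3) × List (Fin 3) × List (Fin 3)) :=
  words c b ×ˢ (words a c ×ˢ words b a)

/-- The compatible triples of words ending at the site `(a, b, c)`. -/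
def X (a b c : ℕ) : Finset (List (Fin 3) × List (Fin 3) × List (Fin 3)) :=
  (Y a b c).filter (fun t => ¬ (t.1.head? = some 1 ∧ t.2.1.head? = some 2) ∧
    ¬ (t.2.1.head? = some 1 ∧ t.2.2.head? = some 2) ∧ ¬ (t.2.2.head? = some 1 ∧ t.1.head? = some 2))

/-- Number of words with last letter `1`. -/
def h1 (p q : ℕ) : ℕ := ((words p q).filter (fun w => w.head? = some 1)).card

/-- Number of words with last letter `2`. -/
def h2 (p q : ℕ) : ℕ := ((words p q).filter (fun w => w.head? = some 2)).card

theorem card_X (a b c : ℕ) : (X a b c).card + (h1 c b * h2 a c * W b a + h1 a c * h2 b a * W c b +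
    h1 b a * h2 c b * W a c) = W a c * W b a * W c b := by
  have e0 : ((Y a b c).filter (fun t => t.1.head? = some 1 ∧ t.2.1.head? = some 2)).card =
      h1 c b * h2 a c * W b a := by
    have : (Y a b c).filter (fun t => t.1.head? = some 1 ∧ t.2.1.head? = some 2) =
      ((words c b).filter (fun w => w.head? = some 1)) ×ˢ
        (((words a c).filter (fun w => w.head? = some 2)) ×ˢ words b a) := by
      ext ⟨x, y, z⟩
      simp only [Y, Finset.mem_filter, Finset.mem_product]
      tauto
    rw [this, Finset.card_product, Finset.card_product, card_words, h1, h2, mul_assoc]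
  have e1 : ((Y a b c).filter (fun t => t.2.1.head? = some 1 ∧ t.2.2.head? = some 2)).card =
      h1 a c * h2 b a * W c b := by
    have : (Y a b c).filter (fun t => t.2.1.head? = some 1 ∧ t.2.2.head? = some 2) =
      words c b ×ˢ (((words a c).filter (fun w => w.head? = some 1)) ×ˢ
        ((words b a).filter (fun w => w.head? = some 2))) := by
      ext ⟨x, y, z⟩
      simp only [Y, Finset.mem_filter, Finset.mem_product]
      tauto
    rw [this, Finset.card_product, Finset.card_product, card_words, h1, h2]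
    ring
  have e2 : ((Y a b c).filter (fun t => t.2.2.head? = some 1 ∧ t.1.head? = some 2)).card =
      h1 b a * h2 c b * W a c := by
    have : (Y a b c).filter (fun t => t.2.2.head? = some 1 ∧ t.1.head? = some 2) =
      ((words c b).filter (fun w => w.head? = some 2)) ×ˢ (words a c ×ˢ
        ((words b a).filter (fun w => w.head? = some 1))) := by
      ext ⟨x, y, z⟩
      simp only [Y, Finset.mem_filter, Finset.mem_product]
      tauto
    rw [this, Finset.card_product, Finset.card_product, card_words, h1, h2]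
    ring
  have eY : (Y a b c).card = W a c * W b a * W c b := by
    simp only [Y, Finset.card_product, card_words]; ring
  rw [← e0, ← e1, ← e2, ← eY, X]
  simp only [Finset.card_filter]
  rw [Finset.card_eq_sum_ones, ← Finset.sum_add_distrib, ← Finset.sum_add_distrib, ← Finset.sum_add_distrib]
  apply Finset.sum_congr rfl
  rintro ⟨x, y, z⟩ _
  simp only []
  by_cases a1 : x.head? = some 1 <;> by_cases a2 : y.head? = some 1 <;> by_cases a3 : z.head? = some 1 <;>
  by_cases b1 : x.head? = some 2 <;> by_cases b2 : y.head? = some 2 <;> by_cases b3 : z.head? = some 2 <;>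
  simp_all

/-- All compatible triples of words of size `m`. -/
def XF (m : ℕ) : Finset (List (Fin 3) × List (Fin 3) × List (Fin 3)) :=
  (Finset.HasAntidiagonal.antidiagonal m).biUnion fun p =>
    (Finset.HasAntidiagonal.antidiagonal p.2).biUnion fun q => X p.1 q.1 q.2

theorem X_det {a b c : ℕ} {t : List (Fin 3) × List (Fin 3) × List (Fin 3)} (h : t ∈ X a b c) :
    (a : ℤ) = P t.2.1 ∧ (b : ℤ) = Q t.1 ∧ (c : ℤ) = P t.1 := by
  simp only [X, Y, Finset.mem_filter, Finset.mem_product, mem_words] at h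
  exact ⟨h.1.2.1.2.1.symm, h.1.1.2.2.symm, h.1.1.2.1.symm⟩

theorem card_XF (m : ℕ) : (XF m).card = ∑ p ∈ Finset.HasAntidiagonal.antidiagonal m,
    ∑ q ∈ Finset.HasAntidiagonal.antidiagonal p.2, (X p.1 q.1 q.2).card := by
  unfold XF
  rw [Finset.card_biUnion]
  · apply Finset.sum_congr rfl
    intro p _
    rw [Finset.card_biUnion]
    intro q _ q' _ hne
    rw [Function.onFun, Finset.disjoint_left]
    intro t ht ht'
    apply hne
    obtain ⟨_, h2, h3⟩ := X_det ht
    obtain ⟨_, h2', h3'⟩ := X_det ht'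
    ext <;> omega
  · intro p hp p' hp' hne
    rw [Function.onFun, Finset.disjoint_left]
    intro t ht ht'
    apply hne
    rw [Finset.mem_biUnion] at ht ht'
    obtain ⟨q, _, ht⟩ := ht
    obtain ⟨q', _, ht'⟩ := ht'
    obtain ⟨h1, _, _⟩ := X_det ht
    obtain ⟨h1', _, _⟩ := X_det ht'
    rw [Finset.mem_coe, Finset.HasAntidiagonal.mem_antidiagonal] at hp hp'
    ext <;> omega

theorem compat_iff (m : ℕ) (w : Fin 3 → List (Fin 3)) : Compat m w ↔ (w 0, w 1, w 2) ∈ XF m := by
  constructor
  · intro hw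
    have hz := hw.inD 0
    have p0 : P (w 0) = pos m 0 (w 0) 2 := (pos_2 m 0 (w 0)).symm
    have q0 : Q (w 0) = pos m 0 (w 0) 1 := (pos_1 m 0 (w 0)).symm
    have p1 : P (w 1) = pos m 0 (w 0) 0 := by
      rw [hw.ends 0 1]; exact (pos_2 m 1 (w 1)).symm
    have q1 : Q (w 1) = pos m 0 (w 0) 2 := by
      rw [hw.ends 0 1]; exact (pos_1 m 1 (w 1)).symm
    have p2 : P (w 2) = pos m 0 (w 0) 1 := by
      rw [hw.ends 0 2]; exact (pos_2 m 2 (w 2)).symm
    have q2 : Q (w 2) = pos m 0 (w 0) 0 := by
      rw [hw.ends 0 2]; exact (pos_1 m 2 (w 2)).symm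
    set z := pos m 0 (w 0) with hzdef
    have z0 := hz.1 0
    have z1 := hz.1 1
    have z2 := hz.1 2
    have zs := hz.2
    rw [XF, Finset.mem_biUnion]
    refine ⟨((z 0).toNat, (z 1).toNat + (z 2).toNat), ?_, ?_⟩
    · rw [Finset.HasAntidiagonal.mem_antidiagonal]
      simp only []
      omega
    · rw [Finset.mem_biUnion]
      refine ⟨((z 1).toNat, (z 2).toNat), ?_, ?_⟩
      · rw [Finset.HasAntidiagonal.mem_antidiagonal]
      · simp only [X, Y, Finset.mem_filter, Finset.mem_product, mem_words]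
        refine ⟨⟨⟨hw.valid 0, ?_, ?_⟩, ⟨hw.valid 1, ?_, ?_⟩, ⟨hw.valid 2, ?_, ?_⟩⟩, hw.sep 0, hw.sep 1, hw.sep 2⟩
        · rw [p0, Int.toNat_of_nonneg z2]
        · rw [q0, Int.toNat_of_nonneg z1]
        · rw [p1, Int.toNat_of_nonneg z0]
        · rw [q1, Int.toNat_of_nonneg z2]
        · rw [p2, Int.toNat_of_nonneg z1]
        · rw [q2, Int.toNat_of_nonneg z0]
  · intro h
    rw [XF, Finset.mem_biUnion] at h
    obtain ⟨⟨a, n⟩, ha, h⟩ := h
    rw [Finset.mem_biUnion] at h
    obtain ⟨⟨b, c⟩, hb, h⟩ := h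
    rw [Finset.HasAntidiagonal.mem_antidiagonal] at ha hb
    simp only [] at ha hb
    simp only [X, Y, Finset.mem_filter, Finset.mem_product, mem_words] at h
    obtain ⟨⟨⟨v0, p0, q0⟩, ⟨v1, p1, q1⟩, ⟨v2, p2, q2⟩⟩, s0, s1, s2⟩ := h
    have hpos : ∀ l, pos m l (w l) = fun r => if r = 0 then (a : ℤ) else if r = 1 then (b : ℤ) else (c : ℤ) := by
      intro l
      have hl : l = 0 ∨ l = 1 ∨ l = 2 := by revert l; decide
      rcases hl with rfl | rfl | rfl
      · apply site_ext 0
        · rw [pos_0]; simp; omega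
        · rw [pos_1]; simp; omega
        · rw [pos_2]; simp; omega
      · apply site_ext 1
        · rw [pos_0]; simp; omega
        · rw [pos_1]; simp; omega
        · rw [pos_2]; simp; omega
      · apply site_ext 2
        · rw [pos_0]; simp; omega
        · rw [pos_1]; simp; omega
        · rw [pos_2]; simp; omega
    refine ⟨?_, ?_, ?_, ?_⟩
    · intro l
      have hl : l = 0 ∨ l = 1 ∨ l = 2 := by revert l; decide
      rcases hl with rfl | rfl | rfl
      exacts [v0, v1, v2]
    · intro l l'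
      rw [hpos, hpos]
    · intro l
      rw [hpos]
      refine ⟨fun r => ?_, ?_⟩
      · simp only []; split_ifs <;> omega
      · simp; omega
    · intro l
      have hl : l = 0 ∨ l = 1 ∨ l = 2 := by revert l; decide
      rcases hl with rfl | rfl | rfl
      exacts [s0, s1, s2]

theorem ncard_compat (m : ℕ) : Set.ncard {w | Compat m w} = (XF m).card := by
  have h : {w : Fin 3 → List (Fin 3) | Compat m w} =
      (fun t : List (Fin 3) × List (Fin 3) × List (Fin 3) => ![t.1, t.2.1, t.2.2]) '' (XF m : Set _) := by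
    ext w
    constructor
    · intro hw
      refine ⟨(w 0, w 1, w 2), (compat_iff m w).1 hw, ?_⟩
      funext l
      fin_cases l <;> rfl
    · rintro ⟨⟨x, y, z⟩, ht, rfl⟩
      exact (compat_iff m _).2 (by simpa using ht)
  rw [h, Set.ncard_image_of_injective, Set.ncard_coe_finset]
  rintro ⟨x, y, z⟩ ⟨x', y', z'⟩ h
  have h0 := congrFun h 0
  have h1 := congrFun h 1
  have h2 := congrFun h 2
  simp at h0 h1 h2
  rw [h0, h1, h2]

/-- The number of compatible triples. -/
theorem ncard_compat_formula (t : ℕ) :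
    Set.ncard {w | Compat ((t : ℤ) + 1) w} + (S 1 0 0 t + S 0 1 0 t + S 0 0 1 t) = S 0 0 0 (t + 1) := by
  have hm : ((t : ℤ) + 1) = ((t + 1 : ℕ) : ℤ) := by push_cast; ring
  rw [hm, ncard_compat, card_XF]
  have hsum : S 0 0 0 (t + 1) = ∑ p ∈ Finset.HasAntidiagonal.antidiagonal (t + 1),
    ∑ q ∈ Finset.HasAntidiagonal.antidiagonal p.2, ((X p.1 q.1 q.2).card +
      (h1 q.2 q.1 * h2 p.1 q.2 * W q.1 p.1 + h1 p.1 q.2 * h2 q.1 p.1 * W q.2 q.1 +
    h1 q.1 p.1 * h2 q.2 q.1 * W p.1 q.2)) := by
    unfold S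
    apply Finset.sum_congr rfl; intro p _
    apply Finset.sum_congr rfl; intro q _
    rw [card_X]
    rfl
  rw [hsum]
  simp only [Finset.sum_add_distrib]
  congr 1
  have g0 : ∑ p ∈ Finset.HasAntidiagonal.antidiagonal (t + 1),
      ∑ q ∈ Finset.HasAntidiagonal.antidiagonal p.2, h1 q.2 q.1 * h2 p.1 q.2 * W q.1 p.1 = S 1 0 0 t := by
    rw [Finset.Nat.sum_antidiagonal_succ']
    simp only [Finset.HasAntidiagonal.antidiagonal_zero, Finset.sum_singleton]
    rw [show h1 0 0 = 0 from card_head1_zero 0]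
    simp only [zero_mul, zero_add]
    unfold S
    apply Finset.sum_congr rfl; intro p _
    rw [Finset.Nat.sum_antidiagonal_succ']
    rw [show h1 0 (p.2 + 1) = 0 from card_head1_zero _]
    simp only [zero_mul, zero_add]
    apply Finset.sum_congr rfl; intro q _
    rw [show h1 (q.2 + 1) q.1 = W q.2 q.1 from card_head1 _ _,
      show h2 p.1 (q.2 + 1) = W (p.1 + 1) q.2 from card_head2 _ _]
    simp only [add_zero]
    ring
  have g1 : ∑ p ∈ Finset.HasAntidiagonal.antidiagonal (t + 1),
      ∑ q ∈ Finset.HasAntidiagonal.antidiagonal p.2, h1 p.1 q.2 * h2 q.1 p.1 * W q.2 q.1 = S 0 1 0 t := by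
    rw [Finset.Nat.sum_antidiagonal_succ]
    have : ∀ q ∈ Finset.HasAntidiagonal.antidiagonal (t + 1), h1 0 q.2 * h2 q.1 0 * W q.2 q.1 = 0 := by
      intro q _
      rw [show h1 0 q.2 = 0 from card_head1_zero _]; ring
    rw [Finset.sum_congr rfl this]
    simp only [Finset.sum_const_zero, zero_add]
    unfold S
    apply Finset.sum_congr rfl; intro p _
    apply Finset.sum_congr rfl; intro q _
    rw [show h1 (p.1 + 1) q.2 = W p.1 q.2 from card_head1 _ _,
      show h2 q.1 (p.1 + 1) = W (q.1 + 1) p.1 from card_head2 _ _]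
    simp only [add_zero]
  have g2 : ∑ p ∈ Finset.HasAntidiagonal.antidiagonal (t + 1),
      ∑ q ∈ Finset.HasAntidiagonal.antidiagonal p.2, h1 q.1 p.1 * h2 q.2 q.1 * W p.1 q.2 = S 0 0 1 t := by
    rw [Finset.Nat.sum_antidiagonal_succ']
    simp only [Finset.HasAntidiagonal.antidiagonal_zero, Finset.sum_singleton]
    rw [show h1 0 (t + 1) = 0 from card_head1_zero _]
    simp only [zero_mul, zero_add]
    unfold S
    apply Finset.sum_congr rfl; intro p _
    rw [Finset.Nat.sum_antidiagonal_succ]
    rw [show h1 0 p.1 = 0 from card_head1_zero _]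
    simp only [zero_mul, zero_add]
    apply Finset.sum_congr rfl; intro q _
    rw [show h1 (q.1 + 1) p.1 = W q.1 p.1 from card_head1 _ _,
      show h2 q.2 (q.1 + 1) = W (q.2 + 1) q.1 from card_head2 _ _]
    simp only [add_zero]
    ring
  rw [g0, g1, g2]

end Pool.Agent.Lib.MP_b072c6_co
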