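import Mathlib
import Pool.Agent.Lib.MP_b072c6_co.Classify
import Pool.Agent.Lib.MP_b072c6_co.Count

/-!
No tile of a tiling of the benzel meets three sites; tilings correspond to exact covers.
-/

namespace Pool.Agent.Lib.MP_b072c6_co

/-- The sites of the triangle of size `m`. -/
noncomputable def DF (m : ℤ) : Finset Site :=
  (Fintype.piFinset (fun _ : Fin 3 => Finset.Icc 0 m)).filter (fun s => s 0 + s 1 + s 2 = m)

theorem mem_DF (m : ℤ) (s : Site) : s ∈ DF m ↔ InD m s := by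
  unfold DF InD
  rw [Finset.mem_filter, Fintype.mem_piFinset]
  constructor
  · rintro ⟨h, h'⟩
    exact ⟨fun r => (Finset.mem_Icc.1 (h r)).1, h'⟩
  · rintro ⟨h, h'⟩
    refine ⟨fun r => Finset.mem_Icc.2 ⟨h r, ?_⟩, h'⟩
    have h0 := h 0
    have h1 := h 1
    have h2 := h 2
    rcases fin3 r with rfl | rfl | rfl <;> omega

/-- The cells of the region. -/
noncomputable def RF (m : ℤ) : Finset (Site × Fin 3) := (DF m ×ˢ Finset.univ).filter (fun p => p.1 p.2 ≠ m)

theorem mem_RF (m : ℤ) (p : Site × Fin 3) : p ∈ RF m ↔ Reg m p.1 p.2 := by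
  unfold RF Reg
  rw [Finset.mem_filter, Finset.mem_product, mem_DF]
  simp

theorem sum_RF {m : ℤ} (hm : 0 ≤ m) (f : Fin 3 → Site → ℤ) (hf : ∀ s, f 0 s + f 1 s + f 2 s = 0) :
    ∑ p ∈ RF m, f p.2 p.1 = - (f 0 (corner m 0) + f 1 (corner m 1) + f 2 (corner m 2)) := by
  have h1 : ∑ p ∈ DF m ×ˢ (Finset.univ : Finset (Fin 3)), f p.2 p.1 = 0 := by
    rw [Finset.sum_product]
    apply Finset.sum_eq_zero
    intro s _
    rw [Fin.sum_univ_three]
    exact hf s
  have h2 : ∑ p ∈ (DF m ×ˢ (Finset.univ : Finset (Fin 3))).filter (fun p => ¬ p.1 p.2 ≠ m), f p.2 p.1 =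
      f 0 (corner m 0) + f 1 (corner m 1) + f 2 (corner m 2) := by
    have : (DF m ×ˢ (Finset.univ : Finset (Fin 3))).filter (fun p => ¬ p.1 p.2 ≠ m) =
        (Finset.univ : Finset (Fin 3)).image (fun c => (corner m c, c)) := by
      ext ⟨s, c⟩
      rw [Finset.mem_filter, Finset.mem_product, mem_DF, Finset.mem_image]
      constructor
      · rintro ⟨⟨hs, _⟩, h⟩
        have he : s = corner m c := eq_corner hs (not_not.1 h)
        exact ⟨c, Finset.mem_univ _, by rw [he]⟩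
      · rintro ⟨c', _, h⟩
        rw [Prod.mk.injEq] at h
        obtain ⟨rfl, rfl⟩ := h
        exact ⟨⟨corner_InD hm _, Finset.mem_univ _⟩, not_not.2 (corner_self m _)⟩
    rw [this, Finset.sum_image, Fin.sum_univ_three]
    intro c _ c' _ h
    exact (Prod.mk.injEq _ _ _ _ ▸ h : _ ∧ _).2
  have h3 := Finset.sum_filter_add_sum_filter_not (DF m ×ˢ (Finset.univ : Finset (Fin 3)))
    (fun p => p.1 p.2 ≠ m) (fun p => f p.2 p.1)
  rw [h1, h2] at h3
  have h4 : ∑ p ∈ RF m, f p.2 p.1 = ∑ p ∈ (DF m ×ˢ (Finset.univ : Finset (Fin 3))).filter (fun p => p.1 p.2 ≠ m), f p.2 p.1 := rfl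
  rw [h4]
  linarith

/-- The site and colour of a cell. -/
noncomputable def inv (m : ℤ) (x : ℤ × ℤ × ℤ) : Site × Fin 3 := by
  classical
  exact if hx : IsCell x then
    (Classical.choose (toCell_surj m hx), Classical.choose (Classical.choose_spec (toCell_surj m hx)))
  else (0, 0)

theorem inv_toCell {m : ℤ} {s : Site} {c : Fin 3} (hs : s 0 + s 1 + s 2 = m) :
    inv m (toCell s c) = (s, c) := by
  unfold inv
  rw [dif_pos (isCell_toCell s c)]
  obtain ⟨h1, h2⟩ := Classical.choose_spec (Classical.choose_spec (toCell_surj m (isCell_toCell s c)))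
  obtain ⟨h3, h4⟩ := toCell_inj h1 hs h2
  exact Prod.ext h3 h4

theorem benzel_eq (m : ℤ) : benzel (m + 2) (2 * (m + 2) - 3) =
    (fun p : Site × Fin 3 => toCell p.1 p.2) '' (RF m : Set (Site × Fin 3)) := by
  ext x
  constructor
  · intro hx
    obtain ⟨s, c, hs, rfl⟩ := toCell_surj m hx.1
    exact ⟨(s, c), (mem_RF m (s, c)).2 ((mem_benzel_iff hs).1 hx), rfl⟩
  · rintro ⟨p, hp, rfl⟩
    have := (mem_RF m p).1 hp
    exact (mem_benzel_iff this.1.2).2 this

theorem benzel_finite (m : ℤ) : (benzel (m + 2) (2 * (m + 2) - 3)).Finite := by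
  rw [benzel_eq]
  exact (Finset.finite_toSet _).image _

theorem finsum_benzel {m : ℤ} (hm : 0 ≤ m) (f : Fin 3 → Site → ℤ) (hf : ∀ s, f 0 s + f 1 s + f 2 s = 0) :
    ∑ᶠ x ∈ benzel (m + 2) (2 * (m + 2) - 3), f (inv m x).2 (inv m x).1 =
      - (f 0 (corner m 0) + f 1 (corner m 1) + f 2 (corner m 2)) := by
  rw [benzel_eq, finsum_mem_image, finsum_mem_coe_finset, ← sum_RF hm f hf]
  · apply Finset.sum_congr rfl
    intro p hp
    rw [inv_toCell ((mem_RF m p).1 hp).1.2]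
  · intro p hp q hq h
    have h1 := (mem_RF m p).1 hp
    have h2 := (mem_RF m q).1 hq
    obtain ⟨h3, h4⟩ := toCell_inj h1.1.2 h2.1.2 h
    exact Prod.ext h3 h4

theorem finsum_three {m : ℤ} (f : Fin 3 → Site → ℤ) {α β γ : Site} {c c' c'' : Fin 3}
    (h12 : c ≠ c') (h13 : c ≠ c'') (h23 : c' ≠ c'')
    (hα : α 0 + α 1 + α 2 = m) (hβ : β 0 + β 1 + β 2 = m) (hγ : γ 0 + γ 1 + γ 2 = m) :
    ∑ᶠ x ∈ ({toCell α c, toCell β c', toCell γ c''} : Set (ℤ × ℤ × ℤ)), f (inv m x).2 (inv m x).1 =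
      f c α + (f c' β + f c'' γ) := by
  rw [finsum_mem_insert, finsum_mem_pair, inv_toCell hα, inv_toCell hβ, inv_toCell hγ]
  · intro h
    exact h23 (toCell_inj hβ hγ h).2
  · rintro (h | h)
    · exact h12 (toCell_inj hα hβ h).2
    · exact h13 (toCell_inj hα hγ h).2
  · exact Set.toFinite _

theorem tiling_finite {m : ℤ} {T : Set (Set (ℤ × ℤ × ℤ))} (hT : IsTiling (m + 2) (2 * (m + 2) - 3) T) :
    T.Finite := by
  apply ((benzel_finite m).finite_subsets).subset
  intro t ht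
  simp only [Set.mem_ofPred_eq]
  rw [← hT.2.2]
  exact Set.subset_sUnion_of_mem ht

theorem no_bad {m : ℤ} (hm : 0 ≤ m) {T : Set (Set (ℤ × ℤ × ℤ))}
    (hT : IsTiling (m + 2) (2 * (m + 2) - 3) T) {α β γ : Site}
    (hα : α 0 + α 1 + α 2 = m) (hβ : β 0 + β 1 + β 2 = m) (hγ : γ 0 + γ 1 + γ 2 = m)
    (hbad : Bad α β γ) (ht : {toCell α 0, toCell β 1, toCell γ 2} ∈ T) : False := by
  have hsub : ({toCell α 0, toCell β 1, toCell γ 2} : Set (ℤ × ℤ × ℤ)) ⊆ benzel (m + 2) (2 * (m + 2) - 3) := by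
    rw [← hT.2.2]
    exact Set.subset_sUnion_of_mem ht
  have dα : InD m α := ((mem_benzel_iff (c := 0) hα).1 (hsub (by simp))).1
  have dβ : InD m β := ((mem_benzel_iff (c := 1) hβ).1 (hsub (by simp))).1
  have dγ : InD m γ := ((mem_benzel_iff (c := 2) hγ).1 (hsub (by simp))).1
  obtain ⟨k0, k1, k2, hk, hk0, hk1, hk2, hw⟩ := phi_bad_weight m α β γ dα dβ dγ hbad
  set f : Fin 3 → Site → ℤ := phi k0 k1 k2 with hfdef
  have hf : ∀ s, f 0 s + f 1 s + f 2 s = 0 := phi_sum k0 k1 k2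
  have htot := finsum_benzel hm f hf
  rw [phi_corners m k0 k1 k2 hk0 hk1 hk2] at htot
  have hfin : ∀ t ∈ T, Set.Finite t := by
    intro t ht
    apply (benzel_finite m).subset
    rw [← hT.2.2]
    exact Set.subset_sUnion_of_mem ht
  rw [← hT.2.2, finsum_mem_sUnion hT.2.1 (tiling_finite hT) hfin] at htot
  -- every tile has nonnegative weight
  have hnonneg : ∀ t ∈ T, 0 ≤ ∑ᶠ x ∈ t, f (inv m x).2 (inv m x).1 := by
    intro t ht
    rcases classify m (hT.1 t ht) with ⟨τ, hτ, rfl⟩ | ⟨a, b, c, ha, hb, hc, hbad', rfl⟩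
    · cases τ with
      | R s =>
        have hs := hτ s 0 rfl
        rw [shape_R, finsum_three f (by decide) (by decide) (by decide) hs hs hs]
        have := hf s
        linarith
      | D l e s =>
        have hs := hτ s (l + 1) (Or.inl ⟨rfl, (l_ne1 l).symm⟩)
        have hs' := hτ (s + step l e) l (Or.inr ⟨rfl, rfl⟩)
        rw [shape_D, finsum_three f (l_ne3 l) (l_ne1 l).symm (l_ne2 l).symm hs hs hs']
        have h1 := phi_step m k0 k1 k2 hk l e s hs
        have h2 : f l s + f (l + 1) s + f (l + 2) s = 0 := by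
          rcases fin3 l with rfl | rfl | rfl
          · exact hf s
          · show f 1 s + f 2 s + f 0 s = 0
            have := hf s
            linarith
          · show f 2 s + f 0 s + f 1 s = 0
            have := hf s
            linarith
        have h3 : f l s ≤ f l (s + step l e) := h1
        linarith
    · rw [finsum_three f (by decide) (by decide) (by decide) ha hb hc]
      have := phi_bad_nonneg m k0 k1 k2 a b c ha hbad'
      linarith
  rw [finsum_mem_eq_finite_toFinset_sum _ (tiling_finite hT)] at htot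
  have hle : ∑ᶠ x ∈ ({toCell α 0, toCell β 1, toCell γ 2} : Set (ℤ × ℤ × ℤ)), f (inv m x).2 (inv m x).1 ≤
      ∑ t ∈ (tiling_finite hT).toFinset, ∑ᶠ x ∈ t, f (inv m x).2 (inv m x).1 := by
    apply Finset.single_le_sum (f := fun t => ∑ᶠ x ∈ t, f (inv m x).2 (inv m x).1)
    · intro t ht
      exact hnonneg t ((Set.Finite.mem_toFinset _).1 ht)
    · exact (Set.Finite.mem_toFinset _).2 ht
  rw [htot, finsum_three f (by decide) (by decide) (by decide) hα hβ hγ] at hle
  linarith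

theorem step_ne_zero (l e : Fin 3) : step l e ≠ 0 := by
  intro h
  have h1 := step_pot l e
  rw [h] at h1
  simp at h1

theorem step_inj (l e e' : Fin 3) (h : step l e = step l e') : e = e' := by
  revert l e e'; decide

theorem Cov_inj {t t' : Tile} (h : ∀ s c, Cov t s c ↔ Cov t' s c) : t = t' := by
  cases t with
  | R s =>
    cases t' with
    | R s' =>
      have := (h s 0).1 rfl
      simp only [Cov] at this
      rw [this]
    | D l e s' =>
      exfalso
      have h1 := (h s' (l + 1)).2 (Or.inl ⟨rfl, (l_ne1 l).symm⟩)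
      have h2 := (h (s' + step l e) l).2 (Or.inr ⟨rfl, rfl⟩)
      simp only [Cov] at h1 h2
      rw [← h1] at h2
      exact step_ne_zero l e (by simpa using h2)
  | D l e s =>
    cases t' with
    | R s' =>
      exfalso
      have h1 := (h s (l + 1)).1 (Or.inl ⟨rfl, (l_ne1 l).symm⟩)
      have h2 := (h (s + step l e) l).1 (Or.inr ⟨rfl, rfl⟩)
      simp only [Cov] at h1 h2
      rw [← h1] at h2
      exact step_ne_zero l e (by simpa using h2)
    | D l' e' s' =>
      have h1 := (h s (l + 1)).1 (Or.inl ⟨rfl, (l_ne1 l).symm⟩)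
      have h2 := (h s (l + 2)).1 (Or.inl ⟨rfl, (l_ne2 l).symm⟩)
      have h3 := (h (s + step l e) l).1 (Or.inr ⟨rfl, rfl⟩)
      have hs : s = s' := by
        rcases h1 with ⟨h1, _⟩ | ⟨_, h1⟩
        · exact h1
        · rcases h2 with ⟨h2, _⟩ | ⟨_, h2⟩
          · exact h2
          · exact (l_ne3 l (h1.trans h2.symm)).elim
      subst hs
      rcases h3 with ⟨h3, _⟩ | ⟨h3, h4⟩
      · exact (step_ne_zero l e (by simpa using h3)).elim
      · subst h4
        rw [step_inj l e e' (by simpa using h3)]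

theorem shape_inj {m : ℤ} {t t' : Tile} (ht : ∀ s c, Cov t s c → s 0 + s 1 + s 2 = m)
    (ht' : ∀ s c, Cov t' s c → s 0 + s 1 + s 2 = m) (h : shape t = shape t') : t = t' := by
  apply Cov_inj
  have key : ∀ {t t' : Tile}, (∀ s c, Cov t s c → s 0 + s 1 + s 2 = m) →
      (∀ s c, Cov t' s c → s 0 + s 1 + s 2 = m) → shape t = shape t' → ∀ s c, Cov t s c → Cov t' s c := by
    intro t t' ht ht' h s c hc
    have : toCell s c ∈ shape t' := by rw [← h]; exact ⟨s, c, hc, rfl⟩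
    obtain ⟨s', c', hc', he⟩ := this
    obtain ⟨rfl, rfl⟩ := toCell_inj (ht' s' c' hc') (ht s c hc) he
    exact hc'
  exact fun s c => ⟨key ht ht' h s c, key ht' ht h.symm s c⟩

theorem Good.sum {m : ℤ} {T : Set Tile} (hT : Good m T) {t : Tile} (ht : t ∈ T) :
    ∀ s c, Cov t s c → s 0 + s 1 + s 2 = m := fun s c hc => (hT.inr t ht s c hc).1.2

theorem tiling_of_good {m : ℤ} {T : Set Tile} (hT : Good m T) :
    IsTiling (m + 2) (2 * (m + 2) - 3) (shape '' T) := by
  refine ⟨?_, ?_, ?_⟩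
  · rintro _ ⟨t, _, rfl⟩
    exact shape_isTile t
  · rintro _ ⟨t, ht, rfl⟩ _ ⟨t', ht', rfl⟩ hne
    rw [Function.onFun, Set.disjoint_left]
    rintro x ⟨s, c, hc, rfl⟩ ⟨s', c', hc', he⟩
    obtain ⟨rfl, rfl⟩ := toCell_inj (hT.sum ht' s' c' hc') (hT.sum ht s c hc) he
    exact hne (by rw [hT.uniq t ht t' ht' _ _ hc hc'])
  · ext x
    constructor
    · rintro ⟨_, ⟨t, ht, rfl⟩, s, c, hc, rfl⟩
      have := hT.inr t ht s c hc
      exact (mem_benzel_iff this.1.2).2 this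
    · intro hx
      obtain ⟨s, c, hs, rfl⟩ := toCell_surj m hx.1
      obtain ⟨t, ht, hc⟩ := hT.cov s c ((mem_benzel_iff hs).1 hx)
      exact ⟨shape t, ⟨t, ht, rfl⟩, s, c, hc, rfl⟩

theorem good_of_tiling {m : ℤ} (hm : 0 ≤ m) {T : Set (Set (ℤ × ℤ × ℤ))}
    (hT : IsTiling (m + 2) (2 * (m + 2) - 3) T) : ∃ T', Good m T' ∧ shape '' T' = T := by
  have hex : ∀ t ∈ T, ∃ τ : Tile, (∀ s c, Cov τ s c → Reg m s c) ∧ t = shape τ := by
    intro t ht
    rcases classify m (hT.1 t ht) with ⟨τ, hτ, rfl⟩ | ⟨a, b, c, ha, hb, hc, hbad, rfl⟩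
    · refine ⟨τ, fun s c hc => ?_, rfl⟩
      rw [← mem_benzel_iff (hτ s c hc), ← hT.2.2]
      exact ⟨shape τ, ht, s, c, hc, rfl⟩
    · exact (no_bad hm hT ha hb hc hbad ht).elim
  refine ⟨{τ | shape τ ∈ T ∧ ∀ s c, Cov τ s c → Reg m s c}, ⟨?_, ?_, ?_⟩, ?_⟩
  · intro τ hτ s c hc
    exact hτ.2 s c hc
  · intro s c hr
    have h1 : toCell s c ∈ ⋃₀ T := by
      rw [hT.2.2]; exact (mem_benzel_iff hr.1.2).2 hr
    obtain ⟨t, ht, hx⟩ := h1
    obtain ⟨τ, hτ, rfl⟩ := hex t ht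
    refine ⟨τ, ⟨ht, hτ⟩, ?_⟩
    obtain ⟨s', c', hc', he⟩ := hx
    obtain ⟨rfl, rfl⟩ := toCell_inj (hτ s' c' hc').1.2 hr.1.2 he
    exact hc'
  · intro τ hτ τ' hτ' s c hc hc'
    have h1 : shape τ = shape τ' := by
      by_contra hne
      have := hT.2.1 hτ.1 hτ'.1 hne
      rw [Function.onFun, Set.disjoint_left] at this
      exact this ⟨s, c, hc, rfl⟩ ⟨s, c, hc', rfl⟩
    exact shape_inj (fun s c hc => (hτ.2 s c hc).1.2) (fun s c hc => (hτ'.2 s c hc).1.2) h1
  · ext t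
    constructor
    · rintro ⟨τ, hτ, rfl⟩
      exact hτ.1
    · intro ht
      obtain ⟨τ, hτ, rfl⟩ := hex t ht
      exact ⟨τ, ⟨ht, hτ⟩, rfl⟩

theorem shape_bijOn {m : ℤ} (hm : 0 ≤ m) : Set.BijOn (fun T : Set Tile => shape '' T) {T | Good m T}
    {T | IsTiling (m + 2) (2 * (m + 2) - 3) T} := by
  refine ⟨fun T hT => tiling_of_good hT, ?_, ?_⟩
  · intro T hT T' hT' h
    simp only [] at h
    have key : ∀ {T T' : Set Tile}, Good m T → Good m T' → shape '' T = shape '' T' → T ⊆ T' := by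
      intro T T' hT hT' h t ht
      have : shape t ∈ shape '' T' := by rw [← h]; exact ⟨t, ht, rfl⟩
      obtain ⟨t', ht', he⟩ := this
      rw [shape_inj (hT.sum ht) (hT'.sum ht') he.symm]
      exact ht'
    exact Set.Subset.antisymm (key hT hT' h) (key hT' hT h.symm)
  · intro T hT
    obtain ⟨T', hT', rfl⟩ := good_of_tiling hm hT
    exact ⟨T', hT', rfl⟩

theorem ncard_eq_of_bijOn {α β : Type*} {f : α → β} {s : Set α} {t : Set β} (h : Set.BijOn f s t) :
    t.ncard = s.ncard := by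
  rw [← h.image_eq, h.injOn.ncard_image]

/-- The number of tilings equals the number of compatible triples of words. -/
theorem T113_eq {m : ℤ} (hm : 0 ≤ m) : T113 (m + 2) (2 * (m + 2) - 3) = Set.ncard {w | Compat m w} := by
  unfold T113
  rw [ncard_eq_of_bijOn (shape_bijOn hm), ncard_eq_of_bijOn (Psi_bijOn hm)]

theorem T113_formula (t : ℕ) : T113 ((t : ℤ) + 3) (2 * ((t : ℤ) + 3) - 3) +
    (S 1 0 0 t + S 0 1 0 t + S 0 0 1 t) = S 0 0 0 (t + 1) := by
  have h := T113_eq (m := (t : ℤ) + 1) (by positivity)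
  rw [show (t : ℤ) + 1 + 2 = (t : ℤ) + 3 by ring] at h
  rw [h]
  exact ncard_compat_formula t

/-- The answer to the question. -/
theorem main : ∀ k : ℕ, ∃ M : ℕ, ∀ n n' : ℤ, 4 ≤ n → 4 ≤ n' → n ≡ n' [ZMOD 2 ^ M] →
    (T113 n (2 * n - 3) : ℤ) ≡ (T113 n' (2 * n' - 3) : ℤ) [ZMOD 2 ^ k] :=
  continuity_of_formula (fun n => T113 n (2 * n - 3)) (fun t _ => T113_formula t)

end Pool.Agent.Lib.MP_b072c6_co
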